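import Pool.Agent.Lib.P65.Defs

/-!
# MP_65a708_lc: circuits with oracle gates, P/poly reductions, NP/poly, the language
-/

namespace P65

/-- Gates of a Boolean circuit (straight-line program). The numbers are the indices of earlier
gates. `orc as` is an oracle gate that is asked for the string of the values of the gates `as`. -/
inductive Gate
  | inp (i : ℕ)
  | cst (b : Bool)
  | neg (a : ℕ)
  | and (a b : ℕ)
  | or (a b : ℕ)
  | orc (as : List ℕ)

/-- Size of a gate: an oracle gate with `k` input wires counts `k + 1`. -/
def Gate.size : Gate → ℕ
  | .orc as => as.length + 1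
  | _ => 1

open Classical in
/-- Value of a gate; `vals` are the values of the earlier gates, `x` the input, `B` the oracle. -/
noncomputable def Gate.eval (B : Set (List Bool)) (x vals : List Bool) : Gate → Bool
  | .inp i => x.getD i false
  | .cst b => b
  | .neg a => !(vals.getD a false)
  | .and a b => vals.getD a false && vals.getD b false
  | .or a b => vals.getD a false || vals.getD b false
  | .orc as => decide (as.map (fun a => vals.getD a false) ∈ B)

/-- The values of all gates of the circuit `C` on the input `x`. -/
noncomputable def runC (B : Set (List Bool)) (x : List Bool) (C : List Gate) : List Bool :=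
  C.foldl (fun vals g => vals ++ [g.eval B x vals]) []

/-- The output of a circuit: the value of its last gate. -/
noncomputable def outC (B : Set (List Bool)) (x : List Bool) (C : List Gate) : Bool :=
  (runC B x C).getLastD false

/-- The size of a circuit. -/
def csize (C : List Gate) : ℕ := (C.map Gate.size).sum

/-- `L` reduces to `B` under P/poly (Turing) reductions: `L ∈ P^B/poly`. -/
def PPolyTuring (L B : Set (List Bool)) : Prop :=
  ∃ d : ℕ, ∀ m, 1 ≤ m → ∃ C : List Gate, csize C ≤ m ^ d + d ∧
    ∀ x : List Bool, x.length = m → (outC B x C = true ↔ x ∈ L)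

/-- `L` is in NP/poly: nondeterministic circuits of polynomial size (without oracle gates). -/
def NPpoly (L : Set (List Bool)) : Prop :=
  ∃ d : ℕ, ∀ m, 1 ≤ m → ∃ (C : List Gate) (k : ℕ), csize C ≤ m ^ d + d ∧ k ≤ m ^ d + d ∧
    (∀ as, Gate.orc as ∉ C) ∧
    ∀ x : List Bool, x.length = m →
      (x ∈ L ↔ ∃ y : List Bool, y.length = k ∧ outC ∅ (x ++ y) C = true)

/-- Symbols of a projection: a constant, an input bit, a negated input bit. -/
inductive PS
  | cst (b : Bool)
  | lit (i : ℕ)
  | nlit (i : ℕ)

/-- Value of a projection symbol. -/
def PS.eval (x : List Bool) : PS → Bool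
  | .cst b => b
  | .lit i => x.getD i false
  | .nlit i => !(x.getD i false)

/-- `L` reduces to `B` by a family of polynomial-size projections: each bit of the image is a
constant, a bit of the input or a negated bit of the input. -/
def PPolyProj (L B : Set (List Bool)) : Prop :=
  ∃ d : ℕ, ∀ m, 1 ≤ m → ∃ W : List PS, W.length ≤ m ^ d + d ∧
    ∀ x : List Bool, x.length = m → (W.map (PS.eval x) ∈ B ↔ x ∈ L)

/-- The truth table of `f`. -/
def ttab {n : ℕ} (f : (Fin n → Bool) → Bool) : List Bool :=
  List.ofFn (fun k : Fin (2 ^ n) => f (fun i => k.1.testBit i.1))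

/-- `s` in binary with `l` bits. -/
def bin (l s : ℕ) : List Bool := List.ofFn (fun i : Fin l => s.testBit i.1)

/-- The minimum circuit size problem for XOR-of-AND circuits: the truth table of a function `f`
of `n` variables followed by a number `s < 2 ^ (n + 1)` written with `n + 1` bits, such that `f`
is the XOR of at most `s` ANDs of literals. -/
def XorAndMCSP : Set (List Bool) :=
  {w | ∃ (n s : ℕ) (f : (Fin n → Bool) → Bool), s < 2 ^ (n + 1) ∧
    w = ttab f ++ bin (n + 1) s ∧ XorAnd f s}

end P65
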