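import Pool.Agent.Lib.P65.CircDefs

/-!
From a gated CNF to a gated hitting set problem. Rows = literals: row `2 i + 1` is the literal
`(i, true)` and row `2 i` is the literal `(i, false)`, `i < N`; so `n + 1 = 2 N` rows. Columns: the
`N` pairs `{2i, 2i+1}` (symbol `cst true`), then one column for every clause. `K = N`: a set `U`
with `|U| ≤ N` that hits all pairs contains exactly one literal of each variable.
-/

namespace P65

theorem cnf_hs (N : ℕ) (hN : 1 ≤ N) (Φ : List (PS × List (ℕ × Bool)))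
    (hΦ : ∀ cl ∈ Φ, cl.2 ≠ [] ∧ ∀ l ∈ cl.2, l.1 < N) :
    ∃ (A : Fin (2 * N - 1 + 1) → Fin (N + Φ.length) → Bool) (G : Fin (N + Φ.length) → PS),
      (∀ j, ∃ u, A u j = true) ∧
      ∀ x : List Bool,
        ((∃ a : ℕ → Bool, ∀ cl ∈ Φ, cl.1.eval x = true → ∃ l ∈ cl.2, a l.1 = l.2) ↔
          ∃ U : Finset (Fin (2 * N - 1 + 1)), U.card ≤ N ∧
            ∀ j, (G j).eval x = true → ∃ u ∈ U, A u j = true) := by
  classical
  have hix : ∀ j : Fin (N + Φ.length), ¬ j.1 < N → j.1 - N < Φ.length := by
    intro j h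
    have := j.2
    omega
  let A : Fin (2 * N - 1 + 1) → Fin (N + Φ.length) → Bool := fun u j =>
    if h : j.1 < N then decide (u.1 / 2 = j.1)
    else decide ((u.1 / 2, decide (u.1 % 2 = 1)) ∈ (Φ[j.1 - N]'(hix j h)).2)
  let G : Fin (N + Φ.length) → PS := fun j =>
    if h : j.1 < N then PS.cst true else (Φ[j.1 - N]'(hix j h)).1
  have A1 : ∀ u j, j.1 < N → (A u j = true ↔ u.1 / 2 = j.1) := by
    intro u j h
    simp only [A, dif_pos h, decide_eq_true_eq]
  have A2 : ∀ u j (h : ¬ j.1 < N), (A u j = true ↔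
      (u.1 / 2, decide (u.1 % 2 = 1)) ∈ (Φ[j.1 - N]'(hix j h)).2) := by
    intro u j h
    simp only [A, dif_neg h, decide_eq_true_eq]
  have G1 : ∀ j : Fin (N + Φ.length), j.1 < N → G j = PS.cst true := by
    intro j h
    simp only [G, dif_pos h]
  have G2 : ∀ (j : Fin (N + Φ.length)) (h : ¬ j.1 < N), G j = (Φ[j.1 - N]'(hix j h)).1 := by
    intro j h
    simp only [G, dif_neg h]
  have hrow : ∀ i < N, ∀ b : Bool, 2 * i + b.toNat < 2 * N - 1 + 1 := by
    intro i hi b
    cases b <;> simp only [Bool.toNat_false, Bool.toNat_true] <;> omega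
  let row : ∀ i, i < N → Bool → Fin (2 * N - 1 + 1) := fun i hi b =>
    ⟨2 * i + b.toNat, hrow i hi b⟩
  have row1 : ∀ i hi b, (row i hi b).1 / 2 = i := by
    intro i hi b
    cases b <;> simp only [row, Bool.toNat_false, Bool.toNat_true] <;> omega
  have row2 : ∀ i hi b, decide ((row i hi b).1 % 2 = 1) = b := by
    intro i hi b
    cases b
    · rw [decide_eq_false_iff_not]
      simp only [row, Bool.toNat_false]
      omega
    · rw [decide_eq_true_eq]
      simp only [row, Bool.toNat_true]
      omega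
  have hmem : ∀ (j : Fin (N + Φ.length)) (h : ¬ j.1 < N), (Φ[j.1 - N]'(hix j h)) ∈ Φ :=
    fun j h => List.getElem_mem _
  refine ⟨A, G, ?_, ?_⟩
  · intro j
    by_cases h : j.1 < N
    · exact ⟨row j.1 h false, (A1 _ j h).2 (row1 j.1 h false)⟩
    · obtain ⟨hne, hlt⟩ := hΦ _ (hmem j h)
      obtain ⟨l, hl⟩ := List.exists_mem_of_ne_nil _ hne
      refine ⟨row l.1 (hlt l hl) l.2, (A2 _ j h).2 ?_⟩
      rw [row1 l.1 (hlt l hl) l.2, row2 l.1 (hlt l hl) l.2]
      exact hl
  · intro x
    constructor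
    · rintro ⟨a, ha⟩
      refine ⟨(Finset.univ : Finset (Fin N)).image fun i => row i.1 i.2 (a i.1), ?_, ?_⟩
      · refine Finset.card_image_le.trans ?_
        rw [Finset.card_univ, Fintype.card_fin]
      · intro j hj
        by_cases h : j.1 < N
        · exact ⟨row j.1 h (a j.1), Finset.mem_image.2 ⟨⟨j.1, h⟩, Finset.mem_univ _, rfl⟩,
            (A1 _ j h).2 (row1 j.1 h (a j.1))⟩
        · rw [G2 j h] at hj
          obtain ⟨l, hl, hal⟩ := ha _ (hmem j h) hj
          have hlt := (hΦ _ (hmem j h)).2 l hl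
          refine ⟨row l.1 hlt (a l.1), Finset.mem_image.2 ⟨⟨l.1, hlt⟩, Finset.mem_univ _, rfl⟩,
            (A2 _ j h).2 ?_⟩
          rw [row1 l.1 hlt (a l.1), row2 l.1 hlt (a l.1), hal]
          exact hl
    · rintro ⟨U, hU, hhit⟩
      have himg : Finset.range N ⊆ U.image fun u => u.1 / 2 := by
        intro i hi
        have hi' := Finset.mem_range.1 hi
        have hlt : i < N + Φ.length := by omega
        obtain ⟨u, hu, hA⟩ := hhit ⟨i, hlt⟩ (by rw [G1 ⟨i, hlt⟩ hi']; rfl)
        exact Finset.mem_image.2 ⟨u, hu, (A1 u ⟨i, hlt⟩ hi').1 hA⟩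
      have hinj : Set.InjOn (fun u : Fin (2 * N - 1 + 1) => u.1 / 2) (U : Set _) := by
        rw [← Finset.card_image_iff]
        have h1 := Finset.card_le_card himg
        have h2 : (U.image fun u => u.1 / 2).card ≤ U.card := Finset.card_image_le
        rw [Finset.card_range] at h1
        omega
      refine ⟨fun i => if h : i < N then decide (row i h true ∈ U) else false, ?_⟩
      intro cl hcl hev
      obtain ⟨k, hk, hkc⟩ := List.mem_iff_getElem.1 hcl
      have hjlt : N + k < N + Φ.length := by omega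
      have hjn : ¬ (⟨N + k, hjlt⟩ : Fin (N + Φ.length)).1 < N := by simp
      have hclj : Φ[(⟨N + k, hjlt⟩ : Fin (N + Φ.length)).1 - N]'(hix ⟨N + k, hjlt⟩ hjn) = cl := by
        rw [← hkc]
        congr 1
        simp
      obtain ⟨u, hu, hA⟩ := hhit ⟨N + k, hjlt⟩ (by rw [G2 _ hjn, hclj]; exact hev)
      have hA' := (A2 u _ hjn).1 hA
      rw [hclj] at hA'
      refine ⟨_, hA', ?_⟩
      have hlt : u.1 / 2 < N := (hΦ cl hcl).2 _ hA'
      show (if h : u.1 / 2 < N then decide (row (u.1 / 2) h true ∈ U) else false) =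
        decide (u.1 % 2 = 1)
      rw [dif_pos hlt]
      by_cases hodd : u.1 % 2 = 1
      · have : row (u.1 / 2) hlt true = u := by
          apply Fin.ext
          simp only [row, Bool.toNat_true]
          omega
        rw [this]
        simp [hu, hodd]
      · have hne : row (u.1 / 2) hlt true ∉ U := by
          intro hin
          have := hinj (Finset.mem_coe.2 hin) (Finset.mem_coe.2 hu)
            (row1 (u.1 / 2) hlt true)
          have h3 := congrArg Fin.val this
          simp only [row, Bool.toNat_true] at h3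
          omega
        simp [hne, hodd]

end P65
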