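import Pool.Agent.Lib.P65.Cube

/-!
The subcubes of the layout. In each case the set is a product of three sets (row part, column
part, flags), each a point or a pair of adjacent points (`isCube_code`, `isCube_singleton`,
`isCube_pair`), or a pair of adjacent codes (`adj1_code_left/mid/right`).
* `cube_a` (`oo (cc i)` and `tt i`): row wire: `gc (i+1)`, `gc i`; column wire: `gr (r+1)`, `gr r`;
  slot step: flags `![true,false,false]` and `![false,false,false]`.
* `cube_c`: flags of `k1 (inr i)` and of `k1 (inl (oo (cc i)))` differ in one place, the rest of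
  the code is equal. `cube_d`: the same for `k2 (inr i)` and `k2 (inl (tt i))`.
* `cube_shape`: `h1`: a point; `h2`: `gc (i+1)`, `gc (i+2)`; `v2`:
  `{gr r, gr (r+1)} × {gc (2j+2), gc (2j+3)} × {![true,false,false]}`; `hv`:
  `{gr (2u)} × {gc (2j+2), gc (2j+3)} × {![false,false,false], ![true,false,false]}`.
-/

namespace P65

namespace CodeCube

theorem adj_tff_fff : Adj1 ![true, false, false] ![false, false, false] :=
  ⟨0, by decide, by decide⟩

theorem adj_ftf_fff : Adj1 ![false, true, false] ![false, false, false] :=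
  ⟨1, by decide, by decide⟩

theorem adj_ttf_tff : Adj1 ![true, true, false] ![true, false, false] :=
  ⟨1, by decide, by decide⟩

theorem adj_tft_tff : Adj1 ![true, false, true] ![true, false, false] :=
  ⟨2, by decide, by decide⟩

theorem adj_fft_fff : Adj1 ![false, false, true] ![false, false, false] :=
  ⟨2, by decide, by decide⟩

end CodeCube

open CodeCube

variable {ρ κ n m : ℕ} (A : Fin (n+1) → Fin m → Bool) {gr : ℕ → Fin ρ → Bool}
  {gc : ℕ → Fin κ → Bool}

theorem cube_a (hgr : IsGray ρ gr) (hgc : IsGray κ gc) (hρ : 2*n+1 ≤ 2^ρ) (hκ : 2*m+3 ≤ 2^κ)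
    (i : SS n m A) : IsCube {k1 n m A gr gc (Sum.inl (oo n m (cc n m A i))),
      k1 n m A gr gc (Sum.inl (tt n m A i))} := by
  rcases i with ⟨u, i⟩ | ⟨j, r⟩ | p
  · apply isCube_pair
    exact adj1_code_mid _ _ _ _ (adj1_symm (hgc.2 i.1 (by omega)))
  · apply isCube_pair
    exact adj1_code_left _ _ _ _ (adj1_symm (hgr.2 r.1 (by omega)))
  · apply isCube_pair
    exact adj1_code_right _ _ _ _ adj_tff_fff

theorem cube_b (hgr : IsGray ρ gr) (hgc : IsGray κ gc) (hρ : 2*n+1 ≤ 2^ρ) (hκ : 2*m+3 ≤ 2^κ)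
    (i : SS n m A) : IsCube {k2 n m A gr gc (Sum.inl (oo n m (cc n m A i))),
      k2 n m A gr gc (Sum.inl (tt n m A i))} := by
  rcases i with ⟨u, i⟩ | ⟨j, r⟩ | p
  · apply isCube_pair
    exact adj1_code_mid _ _ _ _ (adj1_symm (hgc.2 i.1 (by omega)))
  · apply isCube_pair
    exact adj1_code_left _ _ _ _ (adj1_symm (hgr.2 r.1 (by omega)))
  · apply isCube_pair
    exact adj1_code_right _ _ _ _ adj_tff_fff

theorem cube_c (i : SS n m A) : IsCube {k1 n m A gr gc (Sum.inr i),
      k1 n m A gr gc (Sum.inl (oo n m (cc n m A i)))} := by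
  rcases i with ⟨u, i⟩ | ⟨j, r⟩ | p
  · apply isCube_pair
    exact adj1_code_right _ _ _ _ adj_ftf_fff
  · apply isCube_pair
    exact adj1_code_right _ _ _ _ adj_ttf_tff
  · apply isCube_pair
    exact adj1_code_right _ _ _ _ adj_tft_tff

theorem cube_d (i : SS n m A) : IsCube {k2 n m A gr gc (Sum.inr i),
      k2 n m A gr gc (Sum.inl (tt n m A i))} := by
  rcases i with ⟨u, i⟩ | ⟨j, r⟩ | p
  · apply isCube_pair
    exact adj1_code_right _ _ _ _ adj_ftf_fff
  · apply isCube_pair
    exact adj1_code_right _ _ _ _ adj_ttf_tff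
  · apply isCube_pair
    exact adj1_code_right _ _ _ _ adj_fft_fff

theorem cube_zt (hgc : IsGray κ gc) (hκ : 2*m+3 ≤ 2^κ) (c : CC n m) :
    IsCube (zt n m gr gc c) := by
  rcases c with ⟨u, i⟩ | ⟨j, r⟩
  · exact isCube_singleton _
  · apply isCube_pair
    exact adj1_code_mid _ _ _ _ (hgc.2 (2 * j.1 + 2) (by omega))

theorem cube_shape (hgr : IsGray ρ gr) (hgc : IsGray κ gc) (hρ : 2*n+1 ≤ 2^ρ)
    (hκ : 2*m+3 ≤ 2^κ) (Q : Set (CC n m)) (hQ : Shape n m Q) :
    IsCube {z | ∃ c ∈ Q, z ∈ zt n m gr gc c} := by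
  cases hQ with
  | h1 p =>
    have h : {z | ∃ c ∈ ({Sum.inl p} : Set (CC n m)), z ∈ zt n m gr gc c} =
        {code (gr (2 * p.1.1)) (gc (p.2.1 + 1)) ![false, false, false]} := by
      ext z
      simp only [Set.mem_ofPred_eq, Set.mem_singleton_iff, exists_eq_left, zt]
    rw [h]
    exact isCube_singleton _
  | h2 u i hi =>
    have h : {z | ∃ c ∈ ({Sum.inl (u, ⟨i, by omega⟩), Sum.inl (u, ⟨i+1, hi⟩)} : Set (CC n m)),
          z ∈ zt n m gr gc c} =
        {code (gr (2 * u.1)) (gc (i + 1)) ![false, false, false],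
          code (gr (2 * u.1)) (gc (i + 1 + 1)) ![false, false, false]} := by
      ext z
      simp only [Set.mem_ofPred_eq, Set.mem_insert_iff, Set.mem_singleton_iff, exists_eq_or_imp,
        exists_eq_left, zt]
    rw [h]
    apply isCube_pair
    exact adj1_code_mid _ _ _ _ (hgc.2 (i + 1) (by omega))
  | hv u j =>
    have h : {z | ∃ c ∈ ({Sum.inl (u, ⟨2*j.1+1, by omega⟩), Sum.inl (u, ⟨2*j.1+2, by omega⟩),
          Sum.inr (j, pos n u)} : Set (CC n m)), z ∈ zt n m gr gc c} =
        {w : Blk ρ κ → Bool | ∃ x ∈ ({gr (2 * u.1)} : Set (Fin ρ → Bool)),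
          ∃ y ∈ ({gc (2 * j.1 + 2), gc (2 * j.1 + 3)} : Set (Fin κ → Bool)),
          ∃ l ∈ ({![true, false, false], ![false, false, false]} : Set (Fin 3 → Bool)),
            w = code x y l} := by
      ext z
      simp only [Set.mem_ofPred_eq, Set.mem_insert_iff, Set.mem_singleton_iff, exists_eq_or_imp,
        exists_eq_left, zt, pos]
      tauto
    rw [h]
    apply isCube_code
    · exact isCube_singleton _
    · exact isCube_pair _ _ (hgc.2 (2 * j.1 + 2) (by omega))
    · exact isCube_pair _ _ adj_tff_fff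
  | v2 j r hr =>
    have h : {z | ∃ c ∈ ({Sum.inr (j, ⟨r, by omega⟩), Sum.inr (j, ⟨r+1, hr⟩)} : Set (CC n m)),
          z ∈ zt n m gr gc c} =
        {w : Blk ρ κ → Bool | ∃ x ∈ ({gr r, gr (r+1)} : Set (Fin ρ → Bool)),
          ∃ y ∈ ({gc (2 * j.1 + 2), gc (2 * j.1 + 3)} : Set (Fin κ → Bool)),
          ∃ l ∈ ({![true, false, false]} : Set (Fin 3 → Bool)),
            w = code x y l} := by
      ext z
      simp only [Set.mem_ofPred_eq, Set.mem_insert_iff, Set.mem_singleton_iff, exists_eq_or_imp,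
        exists_eq_left, zt]
    rw [h]
    apply isCube_code
    · exact isCube_pair _ _ (hgr.2 r (by omega))
    · exact isCube_pair _ _ (hgc.2 (2 * j.1 + 2) (by omega))
    · exact isCube_singleton _

end P65
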