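import Pool.Agent.Lib.P65.Cube

/-!
The codes of rows and columns are injective; the sets `zt c` are nonempty and disjoint.
(Compare the three parts of the codes: the third part tells the kind, the first two parts the
indices, by the injectivity of the Gray codes on `[0, 2 ^ L)`. All indices are in range:
`2u ≤ 2n`, `r + 1 ≤ 2n`, `i + 1 ≤ 2m + 2`, `2j + 3 ≤ 2m + 1`.)
-/

namespace P65

variable {ρ κ n m : ℕ} (A : Fin (n+1) → Fin m → Bool) {gr : ℕ → Fin ρ → Bool}
  {gc : ℕ → Fin κ → Bool}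

namespace CodeInjAux

theorem l0 {x y z x' y' z' : Bool} (h : (![x, y, z] : Fin 3 → Bool) = ![x', y', z']) :
    x = x' ∧ y = y' ∧ z = z' :=
  ⟨congrFun h 0, congrFun h 1, congrFun h 2⟩

end CodeInjAux

open CodeInjAux

theorem k1_inj (hgr : IsGray ρ gr) (hgc : IsGray κ gc) (hρ : 2*n+1 ≤ 2^ρ) (hκ : 2*m+3 ≤ 2^κ) :
    Function.Injective (k1 n m A gr gc) := by
  intro a b h
  rcases a with (⟨u, i⟩ | ⟨j, r⟩) | ⟨u, i⟩ | ⟨j, r⟩ | ⟨⟨u, j⟩, hp⟩ <;>
  rcases b with (⟨u', i'⟩ | ⟨j', r'⟩) | ⟨u', i'⟩ | ⟨j', r'⟩ | ⟨⟨u', j'⟩, hp'⟩ <;>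
  simp only [k1, kV] at h <;>
  obtain ⟨h1, h2, h3⟩ := code_inj h <;>
  obtain ⟨e1, e2, e3⟩ := l0 h3 <;>
  simp only [Bool.false_eq_true, Bool.true_eq_false, reduceCtorEq] at e1 e2 e3
  · have g1 := hgr.1 _ _ (by omega) (by omega) h1
    have g2 := hgc.1 _ _ (by omega) (by omega) h2
    have : u = u' := Fin.ext (by omega)
    have : i = i' := Fin.ext (by omega)
    subst_vars
    rfl
  · have g1 := hgr.1 _ _ (by omega) (by omega) h1
    have g2 := hgc.1 _ _ (by omega) (by omega) h2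
    have : r = r' := Fin.ext (by omega)
    have : j = j' := Fin.ext (by omega)
    subst_vars
    rfl
  · have g1 := hgr.1 _ _ (by omega) (by omega) h1
    have g2 := hgc.1 _ _ (by omega) (by omega) h2
    have : u = u' := Fin.ext (by omega)
    have : i = i' := Fin.ext (by omega)
    subst_vars
    rfl
  · have g1 := hgr.1 _ _ (by omega) (by omega) h1
    have g2 := hgc.1 _ _ (by omega) (by omega) h2
    have : r = r' := Fin.ext (by omega)
    have : j = j' := Fin.ext (by omega)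
    subst_vars
    rfl
  · have g1 := hgr.1 _ _ (by omega) (by omega) h1
    have g2 := hgc.1 _ _ (by omega) (by omega) h2
    have : u = u' := Fin.ext (by omega)
    have : j = j' := Fin.ext (by omega)
    subst_vars
    rfl

theorem k2_inj (hgr : IsGray ρ gr) (hgc : IsGray κ gc) (hρ : 2*n+1 ≤ 2^ρ) (hκ : 2*m+3 ≤ 2^κ) :
    Function.Injective (k2 n m A gr gc) := by
  intro a b h
  rcases a with (⟨u, i⟩ | ⟨j, r⟩) | ⟨u, i⟩ | ⟨j, r⟩ | ⟨⟨u, j⟩, hp⟩ <;>
  rcases b with (⟨u', i'⟩ | ⟨j', r'⟩) | ⟨u', i'⟩ | ⟨j', r'⟩ | ⟨⟨u', j'⟩, hp'⟩ <;>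
  simp only [k2, kV] at h <;>
  obtain ⟨h1, h2, h3⟩ := code_inj h <;>
  obtain ⟨e1, e2, e3⟩ := l0 h3 <;>
  simp only [Bool.false_eq_true, Bool.true_eq_false, reduceCtorEq] at e1 e2 e3
  · have g1 := hgr.1 _ _ (by omega) (by omega) h1
    have g2 := hgc.1 _ _ (by omega) (by omega) h2
    have : u = u' := Fin.ext (by omega)
    have : i = i' := Fin.ext (by omega)
    subst_vars
    rfl
  · have g1 := hgr.1 _ _ (by omega) (by omega) h1
    have g2 := hgc.1 _ _ (by omega) (by omega) h2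
    have : r = r' := Fin.ext (by omega)
    have : j = j' := Fin.ext (by omega)
    subst_vars
    rfl
  · have g1 := hgr.1 _ _ (by omega) (by omega) h1
    have g2 := hgc.1 _ _ (by omega) (by omega) h2
    have : u = u' := Fin.ext (by omega)
    have : i = i' := Fin.ext (by omega)
    subst_vars
    rfl
  · have g1 := hgr.1 _ _ (by omega) (by omega) h1
    have g2 := hgc.1 _ _ (by omega) (by omega) h2
    have : r = r' := Fin.ext (by omega)
    have : j = j' := Fin.ext (by omega)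
    subst_vars
    rfl
  · have g1 := hgr.1 _ _ (by omega) (by omega) h1
    have g2 := hgc.1 _ _ (by omega) (by omega) h2
    have : u = u' := Fin.ext (by omega)
    have : j = j' := Fin.ext (by omega)
    subst_vars
    rfl

theorem zt_nonempty (c : CC n m) : (zt n m gr gc c).Nonempty := by
  rcases c with ⟨u, i⟩ | ⟨j, r⟩
  · exact ⟨_, rfl⟩
  · exact ⟨_, Or.inl rfl⟩

theorem zt_disj (hgr : IsGray ρ gr) (hgc : IsGray κ gc) (hρ : 2*n+1 ≤ 2^ρ)
    (hκ : 2*m+3 ≤ 2^κ) (c c' : CC n m) (z : Blk ρ κ → Bool) (h : z ∈ zt n m gr gc c)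
    (h' : z ∈ zt n m gr gc c') : c = c' := by
  rcases c with ⟨u, i⟩ | ⟨j, r⟩ <;> rcases c' with ⟨u', i'⟩ | ⟨j', r'⟩ <;>
    simp only [zt, Set.mem_singleton_iff, Set.mem_insert_iff] at h h'
  · rw [h] at h'
    obtain ⟨h1, h2, h3⟩ := code_inj h'
    have g1 := hgr.1 _ _ (by omega) (by omega) h1
    have g2 := hgc.1 _ _ (by omega) (by omega) h2
    have : u = u' := Fin.ext (by omega)
    have : i = i' := Fin.ext (by omega)
    subst_vars
    rfl
  · rcases h' with h' | h' <;> rw [h] at h' <;> obtain ⟨h1, h2, h3⟩ := code_inj h' <;>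
      exact absurd (l0 h3).1 (by simp)
  · rcases h with h | h <;> rw [h] at h' <;> obtain ⟨h1, h2, h3⟩ := code_inj h' <;>
      exact absurd (l0 h3).1 (by simp)
  · have key : r = r' ∧ j = j' := by
      rcases h with h | h <;> rcases h' with h' | h' <;> rw [h] at h' <;>
        obtain ⟨h1, h2, h3⟩ := code_inj h' <;>
        have g1 := hgr.1 _ _ (by omega) (by omega) h1 <;>
        have g2 := hgc.1 _ _ (by omega) (by omega) h2 <;>
        exact ⟨Fin.ext (by omega), Fin.ext (by omega)⟩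
    rw [key.1, key.2]

end P65
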