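import Pool.Agent.Lib.P65.Defs

/-!
Lower bound for the hitting sets of the crossbar.

Let `S` hit the set `{oo c} ∪ {tt i | cc i = c}` of every active element `c`. Write
`a(u,i) = inl (u,i)` (`i : Fin (2m+3)`) and `b(j,r) = inr (j,r)` (`r : Fin (2n+1)`) for the tiles.
The set of the element `inl (u,i)` (`i < 2m+2`) is `{a(u,i+1), a(u,i)}`; the set of `inr (j,r)` is
`{b(j,r)} ∪ {b(j,r-1) | r ≥ 1} ∪ {a(u,2j+2) | r = 2u, A u j}`.

Let `S_u` be the tiles of `S` in the row wire `u` and `S'_j` those in the column wire `j`.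
(1) `|S_u| ≥ m+1`: the sets of the elements `inl (u, 2k)`, `k = 0..m`, are the disjoint pairs
    `{a(u,2k), a(u,2k+1)}`.
(2) If some `a(u,2j+2) ∈ S` then `|S_u| ≥ m+2`: the pairs `{a(u,2k), a(u,2k+1)}`, `k = 0..j`, and
    the pairs `{a(u,2k+3), a(u,2k+4)}` (elements `inl (u,2k+3)`), `k = j..m-1`, are `m+1` pairwise
    disjoint sets that do not contain `a(u,2j+2)`.
(3) `|S'_j| ≥ n` always: the elements `inr (j,2k+1)`, `k = 0..n-1`, are active, not slots, and
    their sets are the disjoint pairs `{b(j,2k), b(j,2k+1)}`.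
(4) If `γ j` and no `u` with `A u j` has `a(u,2j+2) ∈ S`, then `|S'_j| ≥ n+1`: the elements
    `inr (j,2k)`, `k = 0..n`, must be hit by `b(j,2k)` or `b(j,2k-1)`; these sets are disjoint.
Let `U0 = {u | |S_u| ≥ m+2}`; for each `j` of type (4) add one `u_j` with `A u_j j` (`hne`).
The result `U` hits all `j` with `γ j`, and
`|S| = ∑ |S_u| + ∑ |S'_j| ≥ (n+1)(m+1) + |U0| + m n + #(type 4) ≥ (n+1)(m+1) + m n + |U|`.
-/

namespace P65

namespace CrossLBAux

theorem cnt {α : Type} (T : Finset α) (φ : α → ℕ) (K : ℕ) (h : ∀ k, k < K → ∃ x ∈ T, φ x = k) :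
    K ≤ T.card := by
  classical
  calc K = (Finset.range K).card := (Finset.card_range K).symm
    _ ≤ (T.image φ).card := by
        apply Finset.card_le_card
        intro k hk
        rw [Finset.mem_range] at hk
        obtain ⟨x, hx, hk⟩ := h k hk
        exact Finset.mem_image.2 ⟨x, hx, hk⟩
    _ ≤ T.card := Finset.card_image_le

/-- the tile `a (u, i)` is in `S` -/
def aa {n m : ℕ} (S : Finset (VV n m)) (u : Fin (n+1)) (i : ℕ) : Prop :=
  ∃ h : i < 2*m+3, (Sum.inl (u, ⟨i, h⟩) : VV n m) ∈ S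

/-- the tile `b (j, r)` is in `S` -/
def bb {n m : ℕ} (S : Finset (VV n m)) (j : Fin m) (r : ℕ) : Prop :=
  ∃ h : r < 2*n+1, (Sum.inr (j, ⟨r, h⟩) : VV n m) ∈ S

theorem hitA {n m : ℕ} {A : Fin (n+1) → Fin m → Bool} {γ : Fin m → Bool} {S : Finset (VV n m)}
    (hS : ∀ c, ac n m γ c = true → (oo n m c ∈ S ∨ ∃ i, cc n m A i = c ∧ tt n m A i ∈ S))
    (u : Fin (n+1)) (i : ℕ) (hi : i < 2*m+2) : aa S u i ∨ aa S u (i+1) := by
  rcases hS (Sum.inl (u, ⟨i, hi⟩)) rfl with h | ⟨st, h1, h2⟩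
  · right
    exact ⟨by omega, h⟩
  · left
    rcases st with p | q | p
    · have e : p = (u, ⟨i, hi⟩) := Sum.inl.inj h1
      subst e
      exact ⟨by omega, h2⟩
    · simp [cc] at h1
    · simp [cc] at h1

theorem hitB {n m : ℕ} {A : Fin (n+1) → Fin m → Bool} {γ : Fin m → Bool} {S : Finset (VV n m)}
    (hS : ∀ c, ac n m γ c = true → (oo n m c ∈ S ∨ ∃ i, cc n m A i = c ∧ tt n m A i ∈ S))
    (j : Fin m) (r : ℕ) (hr : r < 2*n+1) (h0 : r = 0 → γ j = true) :
    bb S j r ∨ (∃ r', r = r' + 1 ∧ bb S j r') ∨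
      ∃ u : Fin (n+1), r = 2 * u.1 ∧ A u j = true ∧ aa S u (2*j.1+2) := by
  have hac : ac n m γ (Sum.inr (j, ⟨r, hr⟩)) = true := by
    show (if r = 0 then γ j else true) = true
    split_ifs with h
    · exact h0 h
    · rfl
  rcases hS (Sum.inr (j, ⟨r, hr⟩)) hac with h | ⟨st, h1, h2⟩
  · left
    exact ⟨hr, h⟩
  · right
    rcases st with p | q | p
    · simp [cc] at h1
    · left
      have e := Sum.inr.inj h1
      have e1 : q.1 = j := congrArg Prod.fst e
      have e2 : q.2.1 + 1 = r := congrArg (fun z => z.2.1) e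
      refine ⟨q.2.1, e2.symm, ⟨by omega, ?_⟩⟩
      rw [← e1]
      exact h2
    · right
      have e := Sum.inr.inj h1
      have e1 : p.1.2 = j := congrArg Prod.fst e
      have e2 : 2 * p.1.1.1 = r := congrArg (fun z => z.2.1) e
      refine ⟨p.1.1, e2.symm, ?_, ⟨by omega, ?_⟩⟩
      · rw [← e1]
        exact p.2
      · subst e1
        exact h2

end CrossLBAux

open CrossLBAux in
theorem cross_lb (n m : ℕ) (A : Fin (n+1) → Fin m → Bool) (γ : Fin m → Bool)
    (hne : ∀ j, ∃ u, A u j = true) (S : Finset (VV n m))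
    (hS : ∀ c, ac n m γ c = true → (oo n m c ∈ S ∨ ∃ i, cc n m A i = c ∧ tt n m A i ∈ S)) :
    ∃ U : Finset (Fin (n+1)), (∀ j, γ j = true → ∃ u ∈ U, A u j = true) ∧
      (n+1)*(m+1) + m*n + U.card ≤ S.card := by
  classical
  choose ch hch using hne
  set L := S.toLeft with hL
  set R := S.toRight with hR
  have hcard : L.card + R.card = S.card := Finset.card_toLeft_add_card_toRight
  set Su : Fin (n+1) → Finset (Fin (n+1) × Fin (2*m+3)) := fun u => L.filter (fun p => p.1 = u)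
    with hSu
  set Sj : Fin m → Finset (Fin m × Fin (2*n+1)) := fun j => R.filter (fun p => p.1 = j) with hSj
  have hLs : L.card = ∑ u, (Su u).card :=
    Finset.card_eq_sum_card_fiberwise (fun _ _ => Finset.mem_coe.2 (Finset.mem_univ _))
  have hRs : R.card = ∑ j, (Sj j).card :=
    Finset.card_eq_sum_card_fiberwise (fun _ _ => Finset.mem_coe.2 (Finset.mem_univ _))
  have hmemA : ∀ u i, aa S u i → ∃ p ∈ Su u, p.2.1 = i := by
    rintro u i ⟨h, h1⟩
    exact ⟨(u, ⟨i, h⟩), Finset.mem_filter.2 ⟨Finset.mem_toLeft.2 h1, rfl⟩, rfl⟩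
  have hmemB : ∀ j r, bb S j r → ∃ p ∈ Sj j, p.2.1 = r := by
    rintro j r ⟨h, h1⟩
    exact ⟨(j, ⟨r, h⟩), Finset.mem_filter.2 ⟨Finset.mem_toRight.2 h1, rfl⟩, rfl⟩
  -- (1)
  have c1 : ∀ u, m + 1 ≤ (Su u).card := by
    intro u
    refine cnt _ (fun p => p.2.1 / 2) _ (fun k hk => ?_)
    rcases hitA hS u (2*k) (by omega) with h | h
    · obtain ⟨p, hp, e⟩ := hmemA _ _ h
      exact ⟨p, hp, by omega⟩
    · obtain ⟨p, hp, e⟩ := hmemA _ _ h
      exact ⟨p, hp, by omega⟩
  -- (2)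
  have c2 : ∀ u (j : Fin m), aa S u (2*j.1+2) → m + 2 ≤ (Su u).card := by
    intro u j hj
    have hjm := j.2
    refine cnt _ (fun p => if p.2.1 ≤ 2*j.1+1 then p.2.1 / 2 else if p.2.1 = 2*j.1+2 then m + 1
      else (p.2.1 - 1) / 2) _ (fun k hk => ?_)
    by_cases hk1 : k = m + 1
    · obtain ⟨p, hp, e⟩ := hmemA _ _ hj
      refine ⟨p, hp, ?_⟩
      rw [if_neg (by omega), if_pos e, hk1]
    · by_cases hk2 : k ≤ j.1
      · rcases hitA hS u (2*k) (by omega) with h | h
        · obtain ⟨p, hp, e⟩ := hmemA _ _ h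
          refine ⟨p, hp, ?_⟩
          rw [if_pos (by omega)]
          omega
        · obtain ⟨p, hp, e⟩ := hmemA _ _ h
          refine ⟨p, hp, ?_⟩
          rw [if_pos (by omega)]
          omega
      · rcases hitA hS u (2*k+1) (by omega) with h | h
        · obtain ⟨p, hp, e⟩ := hmemA _ _ h
          refine ⟨p, hp, ?_⟩
          rw [if_neg (by omega), if_neg (by omega)]
          omega
        · obtain ⟨p, hp, e⟩ := hmemA _ _ h
          refine ⟨p, hp, ?_⟩
          rw [if_neg (by omega), if_neg (by omega)]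
          omega
  -- (3)
  have c3 : ∀ j, n ≤ (Sj j).card := by
    intro j
    refine cnt _ (fun p => p.2.1 / 2) _ (fun k hk => ?_)
    rcases hitB hS j (2*k+1) (by omega) (by omega) with h | ⟨r', h1, h⟩ | ⟨u, h1, _⟩
    · obtain ⟨p, hp, e⟩ := hmemB _ _ h
      exact ⟨p, hp, by omega⟩
    · obtain ⟨p, hp, e⟩ := hmemB _ _ h
      exact ⟨p, hp, by omega⟩
    · omega
  -- (4)
  set J4 : Finset (Fin m) := Finset.univ.filter
    (fun j => γ j = true ∧ ∀ u, A u j = true → ¬ aa S u (2*j.1+2)) with hJ4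
  have c4 : ∀ j ∈ J4, n + 1 ≤ (Sj j).card := by
    intro j hj
    obtain ⟨-, hg, hno⟩ := Finset.mem_filter.1 hj
    refine cnt _ (fun p => (p.2.1 + 1) / 2) _ (fun k hk => ?_)
    rcases hitB hS j (2*k) (by omega) (fun _ => hg) with h | ⟨r', h1, h⟩ | ⟨u, h1, h2, h3⟩
    · obtain ⟨p, hp, e⟩ := hmemB _ _ h
      exact ⟨p, hp, by omega⟩
    · obtain ⟨p, hp, e⟩ := hmemB _ _ h
      exact ⟨p, hp, by omega⟩
    · exact absurd h3 (hno u h2)
  set U0 : Finset (Fin (n+1)) := Finset.univ.filter (fun u => m + 2 ≤ (Su u).card) with hU0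
  refine ⟨U0 ∪ J4.image ch, ?_, ?_⟩
  · intro j hj
    by_cases hjJ : j ∈ J4
    · exact ⟨ch j, Finset.mem_union_right _ (Finset.mem_image_of_mem _ hjJ), hch j⟩
    · rw [hJ4, Finset.mem_filter] at hjJ
      push Not at hjJ
      obtain ⟨u, h1, h2⟩ := hjJ (Finset.mem_univ _) hj
      exact ⟨u, Finset.mem_union_left _ (Finset.mem_filter.2 ⟨Finset.mem_univ _, c2 u j h2⟩), h1⟩
  · have e1 : (n+1)*(m+1) + U0.card ≤ ∑ u, (Su u).card := by
      have : ∀ u ∈ (Finset.univ : Finset (Fin (n+1))),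
          (m + 1) + (if m + 2 ≤ (Su u).card then 1 else 0) ≤ (Su u).card := by
        intro u _
        split_ifs with h
        · omega
        · have := c1 u
          omega
      have h2 := Finset.sum_le_sum this
      rw [Finset.sum_add_distrib, Finset.sum_const, Finset.card_univ, Fintype.card_fin,
        smul_eq_mul, ← Finset.card_filter] at h2
      exact h2
    have e2 : m*n + J4.card ≤ ∑ j, (Sj j).card := by
      have : ∀ j ∈ (Finset.univ : Finset (Fin m)),
          n + (if (γ j = true ∧ ∀ u, A u j = true → ¬ aa S u (2*j.1+2)) then 1 else 0) ≤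
            (Sj j).card := by
        intro j _
        split_ifs with h
        · exact c4 j (Finset.mem_filter.2 ⟨Finset.mem_univ _, h⟩)
        · have := c3 j
          omega
      have h2 := Finset.sum_le_sum this
      rw [Finset.sum_add_distrib, Finset.sum_const, Finset.card_univ, Fintype.card_fin,
        smul_eq_mul, ← Finset.card_filter] at h2
      exact h2
    have e3 : (U0 ∪ J4.image ch).card ≤ U0.card + J4.card :=
      (Finset.card_union_le _ _).trans (Nat.add_le_add_left Finset.card_image_le _)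
    rw [← hcard, hLs, hRs]
    omega

end P65
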