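import Pool.Agent.Lib.P65.Defs

/-!
The cover of the crossbar given by a hitting set `U`.

Write `a(u,i) = inl (u,i)`, `b(j,r) = inr (j,r)` for the tiles. For `γ j = true` choose
`f j ∈ U` with `A (f j) j`. Define `cov`:
* `cov (inl (u,i))`, `u ∉ U`: `a(u,i+1)` if `i` even, `a(u,i)` if `i` odd;
* `cov (inl (u,i))`, `u ∈ U`: `a(u,i)` if `i` even, `a(u,i+1)` if `i` odd;
* `cov (inr (j,r))`, `γ j = true`, `u = f j`: if `r = 2u`: `a(u,2j+2)`; if `r < 2u`: `b(j,r)` for
  `r` even, `b(j,r-1)` for `r` odd; if `r > 2u`: `b(j,r)` for `r` odd, `b(j,r-1)` for `r` even;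
* `cov (inr (j,r))`, `γ j = false`: `none` if `r = 0`, else `b(j,r)` for `r` odd and `b(j,r-1)` for
  `r` even.
`S` := the set of all tiles used: for `u ∉ U` the `m+1` tiles `a(u,i)`, `i` odd; for `u ∈ U` the
`m+2` tiles `a(u,i)`, `i` even; for `γ j = true`, `u = f j`: `b(j,r)` for `r < 2u` even and for
`r > 2u` odd (`n` tiles; `r ≤ 2n`, so `r ≤ 2n - 1` if odd); for `γ j = false`: `b(j,r)`, `r` odd
(`n` tiles). The sets `{c | cov c = some v}`, `v ∈ S`:
* `a(u,i)`, `u ∉ U`, `i` odd: `{inl (u,i-1), inl (u,i)}` (`h2`; `i ≤ 2m+1`);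
* `a(u,0)`, `u ∈ U`: `{inl (u,0)}` (`h1`); `a(u,2m+2)`, `u ∈ U`: `{inl (u,2m+1)}` (`h1`);
* `a(u,2j+2)`, `u ∈ U`, `j < m`: `{inl (u,2j+1), inl (u,2j+2)}` (`h2`), and in addition
  `inr (j,2u)` if `γ j` and `f j = u` (`hv`);
* `b(j,r)`: `{inr (j,r), inr (j,r+1)}` (`v2`).
-/

namespace P65

namespace CrossUB

/-- The chosen tiles. -/
def inS (n m : ℕ) (U : Finset (Fin (n+1))) (f : Fin m → Fin (n+1)) : VV n m → Prop
  | Sum.inl p => (p.1 ∈ U ↔ p.2.1 % 2 = 0)
  | Sum.inr q => (q.2.1 < 2 * (f q.1).1 ∧ q.2.1 % 2 = 0) ∨ (2 * (f q.1).1 < q.2.1 ∧ q.2.1 % 2 = 1)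

open Classical in
/-- The tile position of an element of a row wire. -/
noncomputable def rowIdx (n m : ℕ) (U : Finset (Fin (n+1))) (u : Fin (n+1))
    (i : Fin (2*m+2)) : Fin (2*m+3) :=
  if (u ∈ U ↔ i.1 % 2 = 0) then i.castSucc else i.succ

/-- The tile position of an element of a column wire. -/
def colIdx (n : ℕ) (e : Fin (n+1)) (r : Fin (2*n+1)) : Fin (2*n+1) :=
  if (r.1 < 2 * e.1 ∧ r.1 % 2 = 0) ∨ (2 * e.1 < r.1 ∧ r.1 % 2 = 1) then r
  else ⟨r.1 - 1, by omega⟩

/-- The cover. -/
noncomputable def cov (n m : ℕ) (γ : Fin m → Bool) (U : Finset (Fin (n+1)))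
    (f : Fin m → Fin (n+1)) : CC n m → Option (VV n m)
  | Sum.inl p => some (Sum.inl (p.1, rowIdx n m U p.1 p.2))
  | Sum.inr q =>
      if q.2.1 = 2 * (f q.1).1 then
        (if γ q.1 = true then some (Sum.inl (f q.1, tpos m q.1)) else none)
      else some (Sum.inr (q.1, colIdx n (f q.1) q.2))

theorem rowIdx_val (n m : ℕ) (U : Finset (Fin (n+1))) (u : Fin (n+1)) (i : Fin (2*m+2)) :
    ((u ∈ U ↔ i.1 % 2 = 0) ∧ (rowIdx n m U u i).1 = i.1) ∨
    (¬ (u ∈ U ↔ i.1 % 2 = 0) ∧ (rowIdx n m U u i).1 = i.1 + 1) := by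
  unfold rowIdx
  split_ifs with h
  · left; exact ⟨h, rfl⟩
  · right; exact ⟨h, rfl⟩

theorem colIdx_val (n : ℕ) (e : Fin (n+1)) (r : Fin (2*n+1)) :
    (((r.1 < 2 * e.1 ∧ r.1 % 2 = 0) ∨ (2 * e.1 < r.1 ∧ r.1 % 2 = 1)) ∧ (colIdx n e r).1 = r.1) ∨
    (¬ ((r.1 < 2 * e.1 ∧ r.1 % 2 = 0) ∨ (2 * e.1 < r.1 ∧ r.1 % 2 = 1)) ∧
      (colIdx n e r).1 = r.1 - 1) := by
  unfold colIdx
  split_ifs with h
  · left; exact ⟨h, rfl⟩
  · right; exact ⟨h, rfl⟩

theorem row_iff (n m : ℕ) (U : Finset (Fin (n+1))) (u : Fin (n+1)) (k : Fin (2*m+3))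
    (hk : (u ∈ U ↔ k.1 % 2 = 0)) (i : Fin (2*m+2)) :
    rowIdx n m U u i = k ↔ i.1 = k.1 ∨ i.1 + 1 = k.1 := by
  rw [Fin.ext_iff]
  by_cases hu : u ∈ U
  · have hk' : k.1 % 2 = 0 := hk.1 hu
    rcases rowIdx_val n m U u i with ⟨h1, h2⟩ | ⟨h1, h2⟩
    · have : i.1 % 2 = 0 := h1.1 hu
      rw [h2]; omega
    · have : ¬ i.1 % 2 = 0 := fun h => h1 ⟨fun _ => h, fun _ => hu⟩
      rw [h2]; omega
  · have hk' : ¬ k.1 % 2 = 0 := fun h => hu (hk.2 h)
    rcases rowIdx_val n m U u i with ⟨h1, h2⟩ | ⟨h1, h2⟩
    · have : ¬ i.1 % 2 = 0 := fun h => hu (h1.2 h)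
      rw [h2]; omega
    · have : i.1 % 2 = 0 := by
        by_contra h
        exact h1 ⟨fun h' => absurd h' hu, fun h' => absurd h' h⟩
      rw [h2]; omega

theorem rowIdx_inS (n m : ℕ) (U : Finset (Fin (n+1))) (u : Fin (n+1)) (i : Fin (2*m+2)) :
    (u ∈ U ↔ (rowIdx n m U u i).1 % 2 = 0) := by
  rcases rowIdx_val n m U u i with ⟨h1, h2⟩ | ⟨h1, h2⟩
  · rw [h2]; exact h1
  · rw [h2]
    constructor
    · intro hu
      have : ¬ i.1 % 2 = 0 := fun h => h1 ⟨fun _ => h, fun _ => hu⟩
      omega
    · intro h
      by_contra hu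
      exact h1 ⟨fun h' => absurd h' hu, fun h' => by omega⟩

theorem card_rows (m : ℕ) :
    (∑ i : Fin (2*m+3), if i.1 % 2 = 0 then 1 else 0) = m + 2 ∧
    (∑ i : Fin (2*m+3), if i.1 % 2 = 0 then 0 else 1) = m + 1 := by
  constructor
  · rw [Fin.sum_univ_eq_sum_range (fun i => if i % 2 = 0 then 1 else 0) (2*m+3)]
    induction m with
    | zero => decide
    | succ k ih =>
      have e : 2 * (k+1) + 3 = 2*k+3+1+1 := by ring
      rw [e, Finset.sum_range_succ, Finset.sum_range_succ, ih]
      have h1 : ¬ (2*k+3) % 2 = 0 := by omega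
      have h2 : (2*k+3+1) % 2 = 0 := by omega
      simp only [h1, h2, if_true, if_false]
  · rw [Fin.sum_univ_eq_sum_range (fun i => if i % 2 = 0 then 0 else 1) (2*m+3)]
    induction m with
    | zero => decide
    | succ k ih =>
      have e : 2 * (k+1) + 3 = 2*k+3+1+1 := by ring
      rw [e, Finset.sum_range_succ, Finset.sum_range_succ, ih]
      have h1 : ¬ (2*k+3) % 2 = 0 := by omega
      have h2 : (2*k+3+1) % 2 = 0 := by omega
      simp only [h1, h2, if_true, if_false]

theorem card_col_low (e k : ℕ) (hk : k ≤ e) :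
    (∑ r ∈ Finset.range (2*k), if (r < 2*e ∧ r % 2 = 0) ∨ (2*e < r ∧ r % 2 = 1) then 1 else 0)
      = k := by
  induction k with
  | zero => rfl
  | succ k ih =>
    have e1 : 2 * (k+1) = 2*k+1+1 := by ring
    rw [e1, Finset.sum_range_succ, Finset.sum_range_succ, ih (by omega)]
    have h1 : (2*k < 2*e ∧ (2*k) % 2 = 0) ∨ (2*e < 2*k ∧ (2*k) % 2 = 1) := by omega
    have h2 : ¬ ((2*k+1 < 2*e ∧ (2*k+1) % 2 = 0) ∨ (2*e < 2*k+1 ∧ (2*k+1) % 2 = 1)) := by omega
    rw [if_pos h1, if_neg h2]

theorem card_col (e n : ℕ) (hn : e ≤ n) :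
    (∑ r ∈ Finset.range (2*n+1), if (r < 2*e ∧ r % 2 = 0) ∨ (2*e < r ∧ r % 2 = 1) then 1 else 0)
      = n := by
  induction n, hn using Nat.le_induction with
  | base =>
    rw [Finset.sum_range_succ, card_col_low e e le_rfl]
    have h2 : ¬ ((2*e < 2*e ∧ (2*e) % 2 = 0) ∨ (2*e < 2*e ∧ (2*e) % 2 = 1)) := by omega
    rw [if_neg h2, add_zero]
  | succ k hk ih =>
    have e1 : 2 * (k+1) + 1 = 2*k+1+1+1 := by ring
    rw [e1, Finset.sum_range_succ, Finset.sum_range_succ, ih]
    have h1 : (2*k+1 < 2*e ∧ (2*k+1) % 2 = 0) ∨ (2*e < 2*k+1 ∧ (2*k+1) % 2 = 1) := by omega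
    have h2 : ¬ ((2*k+1+1 < 2*e ∧ (2*k+1+1) % 2 = 0) ∨
      (2*e < 2*k+1+1 ∧ (2*k+1+1) % 2 = 1)) := by omega
    rw [if_pos h1, if_neg h2]

end CrossUB

open CrossUB in
theorem cross_ub (n m : ℕ) (A : Fin (n+1) → Fin m → Bool) (γ : Fin m → Bool)
    (U : Finset (Fin (n+1))) (hU : ∀ j, γ j = true → ∃ u ∈ U, A u j = true) :
    ∃ (cov : CC n m → Option (VV n m)) (S : Finset (VV n m)),
      (∀ c, cov c = none ↔ ac n m γ c = false) ∧
      (∀ c v, cov c = some v → v = oo n m c ∨ ∃ i, cc n m A i = c ∧ tt n m A i = v) ∧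
      (∀ c v, cov c = some v → v ∈ S) ∧
      (∀ v ∈ S, Shape n m {c | cov c = some v}) ∧
      S.card = (n+1)*(m+1) + m*n + U.card := by
  classical
  have hf0 : ∀ j, ∃ u : Fin (n+1), (γ j = true → u ∈ U ∧ A u j = true) ∧
      (γ j = false → u.1 = 0) := by
    intro j
    rcases hg : γ j with _ | _
    · exact ⟨0, by simp, by simp⟩
    · obtain ⟨u, hu, hA⟩ := hU j hg
      exact ⟨u, fun _ => ⟨hu, hA⟩, by simp⟩
  choose f hf using hf0
  refine ⟨cov n m γ U f, Finset.univ.filter (inS n m U f), ?_, ?_, ?_, ?_, ?_⟩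
  · -- none
    rintro (p | q)
    · simp [cov, ac]
    · obtain ⟨j, r⟩ := q
      simp only [cov, ac]
      rcases hg : γ j with _ | _
      · have h0 := (hf j).2 hg
        rw [h0]
        by_cases hr : r.1 = 0
        · simp [hr]
        · simp [hr]
      · by_cases hr : r.1 = 2 * (f j).1
        · simp [hr]
        · simp [hr]
  · -- tiles
    rintro (p | q) v hv
    · obtain ⟨u, i⟩ := p
      simp only [cov, Option.some.injEq] at hv
      subst hv
      rcases rowIdx_val n m U u i with ⟨h1, h2⟩ | ⟨h1, h2⟩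
      · right
        refine ⟨Sum.inl (u, i), rfl, ?_⟩
        simp only [tt, Sum.inl.injEq, Prod.mk.injEq, true_and]
        exact Fin.ext h2.symm
      · left
        simp only [oo, Sum.inl.injEq, Prod.mk.injEq, true_and]
        exact Fin.ext h2
    · obtain ⟨j, r⟩ := q
      simp only [cov] at hv
      by_cases hr : r.1 = 2 * (f j).1
      · rw [if_pos hr] at hv
        by_cases hg : γ j = true
        · rw [if_pos hg, Option.some.injEq] at hv
          subst hv
          right
          refine ⟨Sum.inr (Sum.inr ⟨(f j, j), ((hf j).1 hg).2⟩), ?_, rfl⟩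
          simp only [cc, Sum.inr.injEq, Prod.mk.injEq, true_and]
          exact Fin.ext hr.symm
        · rw [if_neg hg] at hv
          exact absurd hv (by simp)
      · rw [if_neg hr, Option.some.injEq] at hv
        subst hv
        rcases colIdx_val n (f j) r with ⟨h1, h2⟩ | ⟨h1, h2⟩
        · left
          simp only [oo, Sum.inr.injEq, Prod.mk.injEq, true_and]
          exact Fin.ext h2
        · right
          have hr1 : 1 ≤ r.1 := by omega
          have hr2 : r.1 - 1 < 2 * n := by omega
          refine ⟨Sum.inr (Sum.inl (j, ⟨r.1 - 1, hr2⟩)), ?_, ?_⟩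
          · simp only [cc, Sum.inr.injEq, Prod.mk.injEq, true_and]
            apply Fin.ext
            simp only [Fin.val_succ]
            omega
          · simp only [tt, Sum.inr.injEq, Prod.mk.injEq, true_and]
            apply Fin.ext
            simp only [Fin.val_castSucc]
            omega
  · -- membership
    rintro (p | q) v hv
    · obtain ⟨u, i⟩ := p
      simp only [cov, Option.some.injEq] at hv
      subst hv
      simp only [Finset.mem_filter, Finset.mem_univ, true_and, inS]
      exact rowIdx_inS n m U u i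
    · obtain ⟨j, r⟩ := q
      simp only [cov] at hv
      by_cases hr : r.1 = 2 * (f j).1
      · rw [if_pos hr] at hv
        by_cases hg : γ j = true
        · rw [if_pos hg, Option.some.injEq] at hv
          subst hv
          simp only [Finset.mem_filter, Finset.mem_univ, true_and, inS, tpos]
          exact ⟨fun _ => by omega, fun _ => ((hf j).1 hg).1⟩
        · rw [if_neg hg] at hv
          exact absurd hv (by simp)
      · rw [if_neg hr, Option.some.injEq] at hv
        subst hv
        simp only [Finset.mem_filter, Finset.mem_univ, true_and, inS]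
        rcases colIdx_val n (f j) r with ⟨h1, h2⟩ | ⟨h1, h2⟩
        · rw [h2]; exact h1
        · rw [h2]; omega
  · -- shapes
    rintro (p | q) hv
    · obtain ⟨u, k⟩ := p
      simp only [Finset.mem_filter, Finset.mem_univ, true_and, inS] at hv
      have hinl : ∀ (u' : Fin (n+1)) (i : Fin (2*m+2)),
          cov n m γ U f (Sum.inl (u', i)) = some (Sum.inl (u, k)) ↔
            u' = u ∧ (i.1 = k.1 ∨ i.1 + 1 = k.1) := by
        intro u' i
        simp only [cov, Option.some.injEq, Sum.inl.injEq, Prod.mk.injEq]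
        constructor
        · rintro ⟨rfl, h⟩
          exact ⟨rfl, (row_iff n m U u' k hv i).1 h⟩
        · rintro ⟨rfl, h⟩
          exact ⟨rfl, (row_iff n m U u' k hv i).2 h⟩
      have hinr : ∀ (j : Fin m) (r : Fin (2*n+1)),
          cov n m γ U f (Sum.inr (j, r)) = some (Sum.inl (u, k)) ↔
            r.1 = 2 * u.1 ∧ γ j = true ∧ f j = u ∧ k.1 = 2 * j.1 + 2 := by
        intro j r
        simp only [cov]
        by_cases hr : r.1 = 2 * (f j).1
        · rw [if_pos hr]
          by_cases hg : γ j = true
          · rw [if_pos hg]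
            simp only [Option.some.injEq, Sum.inl.injEq, Prod.mk.injEq]
            constructor
            · rintro ⟨h1, h2⟩
              refine ⟨by rw [hr, h1], hg, h1, ?_⟩
              rw [← h2]; rfl
            · rintro ⟨h1, h2, h3, h4⟩
              refine ⟨h3, ?_⟩
              apply Fin.ext
              rw [h4]; rfl
          · rw [if_neg hg]
            constructor
            · intro h; exact absurd h (by simp)
            · rintro ⟨h1, h2, h3, h4⟩
              exact absurd h2 hg
        · rw [if_neg hr]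
          constructor
          · intro h; exact absurd h (by simp)
          · rintro ⟨h1, h2, h3, h4⟩
            rw [← h3] at h1
            exact absurd h1 hr
      by_cases hj : ∃ j : Fin m, γ j = true ∧ f j = u ∧ k.1 = 2 * j.1 + 2
      · obtain ⟨j, hj1, hj2, hj3⟩ := hj
        have hset : {c | cov n m γ U f c = some (Sum.inl (u, k))} =
            {Sum.inl (u, ⟨2*j.1+1, by omega⟩), Sum.inl (u, ⟨2*j.1+2, by omega⟩),
              Sum.inr (j, pos n u)} := by
          ext c
          rcases c with ⟨u', i⟩ | ⟨j', r⟩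
          · rw [Set.mem_ofPred_eq, hinl]
            simp only [Set.mem_insert_iff, Set.mem_singleton_iff, Sum.inl.injEq, Prod.mk.injEq,
              reduceCtorEq, or_false, Fin.ext_iff]
            omega
          · rw [Set.mem_ofPred_eq, hinr]
            simp only [Set.mem_insert_iff, Set.mem_singleton_iff, Sum.inr.injEq, Prod.mk.injEq,
              reduceCtorEq, false_or]
            constructor
            · rintro ⟨h1, h2, h3, h4⟩
              refine ⟨Fin.ext (by omega), Fin.ext ?_⟩
              rw [h1]; rfl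
            · rintro ⟨h1, h2⟩
              subst h1
              refine ⟨by rw [h2]; rfl, hj1, hj2, hj3⟩
        rw [hset]
        exact Shape.hv u j
      · have hinr' : ∀ (j : Fin m) (r : Fin (2*n+1)),
            ¬ cov n m γ U f (Sum.inr (j, r)) = some (Sum.inl (u, k)) := by
          intro j r h
          rw [hinr] at h
          exact hj ⟨j, h.2⟩
        have hk3 := k.2
        by_cases hk0 : k.1 = 0
        · have hset : {c | cov n m γ U f c = some (Sum.inl (u, k))} =
              {Sum.inl (u, ⟨0, by omega⟩)} := by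
            ext c
            rcases c with ⟨u', i⟩ | ⟨j', r⟩
            · rw [Set.mem_ofPred_eq, hinl]
              simp only [Set.mem_singleton_iff, Sum.inl.injEq, Prod.mk.injEq, Fin.ext_iff]
              omega
            · rw [Set.mem_ofPred_eq]
              simp only [Set.mem_singleton_iff, reduceCtorEq, iff_false]
              exact hinr' j' r
          rw [hset]
          exact Shape.h1 (u, ⟨0, by omega⟩)
        · by_cases hk1 : k.1 = 2*m+2
          · have hset : {c | cov n m γ U f c = some (Sum.inl (u, k))} =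
                {Sum.inl (u, ⟨2*m+1, by omega⟩)} := by
              ext c
              rcases c with ⟨u', i⟩ | ⟨j', r⟩
              · have hi := i.2
                rw [Set.mem_ofPred_eq, hinl]
                simp only [Set.mem_singleton_iff, Sum.inl.injEq, Prod.mk.injEq, Fin.ext_iff]
                omega
              · rw [Set.mem_ofPred_eq]
                simp only [Set.mem_singleton_iff, reduceCtorEq, iff_false]
                exact hinr' j' r
            rw [hset]
            exact Shape.h1 (u, ⟨2*m+1, by omega⟩)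
          · have hset : {c | cov n m γ U f c = some (Sum.inl (u, k))} =
                {Sum.inl (u, ⟨k.1-1, by omega⟩), Sum.inl (u, ⟨k.1-1+1, by omega⟩)} := by
              ext c
              rcases c with ⟨u', i⟩ | ⟨j', r⟩
              · rw [Set.mem_ofPred_eq, hinl]
                simp only [Set.mem_insert_iff, Set.mem_singleton_iff, Sum.inl.injEq,
                  Prod.mk.injEq, Fin.ext_iff]
                omega
              · rw [Set.mem_ofPred_eq]
                simp only [Set.mem_insert_iff, Set.mem_singleton_iff, reduceCtorEq, or_self,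
                  iff_false]
                exact hinr' j' r
            rw [hset]
            exact Shape.h2 u (k.1-1) (by omega)
    · obtain ⟨j, k⟩ := q
      simp only [Finset.mem_filter, Finset.mem_univ, true_and, inS] at hv
      have hk3 := k.2
      have hf3 := (f j).2
      have hk1 : k.1 + 1 < 2*n+1 := by omega
      have hset : {c | cov n m γ U f c = some (Sum.inr (j, k))} =
          {Sum.inr (j, ⟨k.1, by omega⟩), Sum.inr (j, ⟨k.1+1, hk1⟩)} := by
        ext c
        rcases c with ⟨u', i⟩ | ⟨j', r⟩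
        · simp [cov]
        · rw [Set.mem_ofPred_eq]
          simp only [Set.mem_insert_iff, Set.mem_singleton_iff, Sum.inr.injEq, Prod.mk.injEq,
            Fin.ext_iff, cov]
          by_cases hr : r.1 = 2 * (f j').1
          · rw [if_pos hr]
            constructor
            · intro h
              exfalso
              by_cases hg : γ j' = true
              · rw [if_pos hg] at h; exact absurd h (by simp)
              · rw [if_neg hg] at h; exact absurd h (by simp)
            · intro h
              exfalso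
              have hjj : j' = j := by
                apply Fin.ext
                omega
              subst hjj
              omega
          · rw [if_neg hr]
            simp only [Option.some.injEq, Sum.inr.injEq, Prod.mk.injEq]
            constructor
            · rintro ⟨rfl, h2⟩
              have h3 : (colIdx n (f j') r).1 = k.1 := by rw [h2]
              rcases colIdx_val n (f j') r with ⟨h4, h5⟩ | ⟨h4, h5⟩
              · omega
              · omega
            · intro h
              have hjj : j' = j := by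
                apply Fin.ext
                omega
              subst hjj
              refine ⟨rfl, Fin.ext ?_⟩
              rcases colIdx_val n (f j') r with ⟨h4, h5⟩ | ⟨h4, h5⟩
              · omega
              · omega
      rw [hset]
      exact Shape.v2 j k.1 hk1
  · -- cardinality
    rw [Finset.card_filter, Fintype.sum_sum_type, Fintype.sum_prod_type, Fintype.sum_prod_type]
    have hrow : ∀ u : Fin (n+1), (∑ i : Fin (2*m+3),
        if inS n m U f (Sum.inl (u, i)) then 1 else 0) = (m + 1) + (if u ∈ U then 1 else 0) := by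
      intro u
      by_cases hu : u ∈ U
      · rw [if_pos hu, show m + 1 + 1 = m + 2 from rfl, ← (card_rows m).1]
        apply Finset.sum_congr rfl
        intro i _
        simp [inS, hu]
      · rw [if_neg hu, add_zero, ← (card_rows m).2]
        apply Finset.sum_congr rfl
        intro i _
        by_cases hi : i.1 % 2 = 0 <;> simp [inS, hu, hi]
    have hcol : ∀ j : Fin m, (∑ r : Fin (2*n+1),
        if inS n m U f (Sum.inr (j, r)) then 1 else 0) = n := by
      intro j
      have h := Fin.sum_univ_eq_sum_range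
        (fun r => if (r < 2*(f j).1 ∧ r % 2 = 0) ∨ (2*(f j).1 < r ∧ r % 2 = 1) then 1 else 0)
        (2*n+1)
      rw [card_col (f j).1 n (by omega)] at h
      refine Eq.trans (Finset.sum_congr rfl (fun r _ => ?_)) h
      exact if_congr Iff.rfl rfl rfl
    rw [Finset.sum_congr rfl (fun u _ => hrow u), Finset.sum_congr rfl (fun j _ => hcol j)]
    rw [Finset.sum_add_distrib]
    simp
    ring

end P65
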