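import Pool.Agent.Lib.P65.Defs

/-!
Subcubes: points, pairs of adjacent points, products.
-/

namespace P65

theorem isCube_singleton {ι : Type} (x : ι → Bool) : IsCube {x} := by
  refine ⟨fun i => some (x i), fun y => ?_⟩
  rw [Set.mem_singleton_iff]
  constructor
  · rintro rfl i
    exact Or.inr rfl
  · intro h
    funext i
    rcases h i with h1 | h1
    · exact absurd h1 (by simp)
    · exact (Option.some.inj h1).symm

/-- Two points that differ in exactly one coordinate form a subcube. -/
theorem isCube_pair {ι : Type} (x y : ι → Bool) (h : Adj1 x y) :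
    IsCube {x, y} := by
  classical
  obtain ⟨i, hi, hj⟩ := h
  refine ⟨fun j => if j = i then none else some (x j), fun z => ?_⟩
  rw [Set.mem_insert_iff, Set.mem_singleton_iff]
  constructor
  · rintro (rfl | rfl) j
    · by_cases hji : j = i
      · exact Or.inl (if_pos hji)
      · exact Or.inr (if_neg hji)
    · by_cases hji : j = i
      · exact Or.inl (if_pos hji)
      · refine Or.inr ?_
        show (if j = i then none else some (x j)) = some (z j)
        rw [if_neg hji, hj j hji]
  · intro hz
    have h1 : ∀ j, j ≠ i → x j = z j := by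
      intro j hji
      rcases hz j with h2 | h2
      · change (if j = i then none else some (x j)) = none at h2
        rw [if_neg hji] at h2
        exact absurd h2 (by simp)
      · change (if j = i then none else some (x j)) = some (z j) at h2
        rw [if_neg hji] at h2
        exact Option.some.inj h2
    by_cases hzi : z i = x i
    · left
      funext j
      by_cases hji : j = i
      · rw [hji, hzi]
      · exact (h1 j hji).symm
    · right
      funext j
      by_cases hji : j = i
      · rw [hji]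
        revert hzi hi
        cases z i <;> cases x i <;> cases y i <;> simp
      · rw [← h1 j hji, hj j hji]

theorem adj1_symm {ι : Type} {x y : ι → Bool} (h : Adj1 x y) : Adj1 y x := by
  obtain ⟨i, hi, hj⟩ := h
  exact ⟨i, hi.symm, fun j hji => (hj j hji).symm⟩

/-- Product of three subcubes, in the coordinates of a block. -/
theorem isCube_code {ρ κ : ℕ} (S1 : Set (Fin ρ → Bool)) (S2 : Set (Fin κ → Bool))
    (S3 : Set (Fin 3 → Bool)) (h1 : IsCube S1) (h2 : IsCube S2) (h3 : IsCube S3) :
    IsCube {w : Blk ρ κ → Bool | ∃ x ∈ S1, ∃ y ∈ S2, ∃ l ∈ S3, w = code x y l} := by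
  obtain ⟨c1, h1⟩ := h1
  obtain ⟨c2, h2⟩ := h2
  obtain ⟨c3, h3⟩ := h3
  refine ⟨Sum.elim c1 (Sum.elim c2 c3), fun w => ?_⟩
  constructor
  · rintro ⟨x, hx, y, hy, l, hl, rfl⟩ i
    rcases i with i | i | i
    · exact (h1 x).1 hx i
    · exact (h2 y).1 hy i
    · exact (h3 l).1 hl i
  · intro hw
    refine ⟨fun i => w (Sum.inl i), (h1 _).2 (fun i => hw (Sum.inl i)),
      fun i => w (Sum.inr (Sum.inl i)), (h2 _).2 (fun i => hw (Sum.inr (Sum.inl i))),
      fun i => w (Sum.inr (Sum.inr i)), (h3 _).2 (fun i => hw (Sum.inr (Sum.inr i))), ?_⟩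
    funext i
    rcases i with i | i | i <;> rfl

/-- Changing one part of a code. -/
theorem adj1_code_left {ρ κ : ℕ} (x x' : Fin ρ → Bool) (y : Fin κ → Bool) (l : Fin 3 → Bool)
    (h : Adj1 x x') : Adj1 (code x y l) (code x' y l) := by
  obtain ⟨i, hi, hj⟩ := h
  refine ⟨Sum.inl i, hi, fun j hji => ?_⟩
  rcases j with j | j | j
  · exact hj j (fun e => hji (by rw [e]))
  · rfl
  · rfl

theorem adj1_code_mid {ρ κ : ℕ} (x : Fin ρ → Bool) (y y' : Fin κ → Bool) (l : Fin 3 → Bool)
    (h : Adj1 y y') : Adj1 (code x y l) (code x y' l) := by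
  obtain ⟨i, hi, hj⟩ := h
  refine ⟨Sum.inr (Sum.inl i), hi, fun j hji => ?_⟩
  rcases j with j | j | j
  · rfl
  · exact hj j (fun e => hji (by rw [e]))
  · rfl

theorem adj1_code_right {ρ κ : ℕ} (x : Fin ρ → Bool) (y : Fin κ → Bool) (l l' : Fin 3 → Bool)
    (h : Adj1 l l') : Adj1 (code x y l) (code x y l') := by
  obtain ⟨i, hi, hj⟩ := h
  refine ⟨Sum.inr (Sum.inr i), hi, fun j hji => ?_⟩
  rcases j with j | j | j
  · rfl
  · rfl
  · exact hj j (fun e => hji (by rw [e]))

theorem code_inj {ρ κ : ℕ} {x x' : Fin ρ → Bool} {y y' : Fin κ → Bool} {l l' : Fin 3 → Bool}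
    (h : code x y l = code x' y' l') : x = x' ∧ y = y' ∧ l = l' := by
  refine ⟨?_, ?_, ?_⟩
  · funext i
    exact congrFun h (Sum.inl i)
  · funext i
    exact congrFun h (Sum.inr (Sum.inl i))
  · funext i
    exact congrFun h (Sum.inr (Sum.inr i))

end P65
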