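import Pool.Agent.Lib.P65.CircDefs

/-!
Unique decoding of the instances: `2 ^ n + (n + 1)` determines `n`, then the first `2 ^ n` bits
are the truth table (all functions `Fin n → Bool` are of the form `fun i => k.testBit i` for a
unique `k < 2 ^ n`), the last `n + 1` bits are the number `s < 2 ^ (n + 1)`.
-/

namespace P65

private theorem exists_testBit {n : ℕ} (x : Fin n → Bool) :
    ∃ k : Fin (2 ^ n), ∀ i : Fin n, k.1.testBit i.1 = x i :=
  ⟨⟨Nat.ofBits x, Nat.ofBits_lt_two_pow x⟩, fun i => Nat.testBit_ofBits_lt x i.1 i.2⟩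

private theorem ttab_inj {n : ℕ} {f g : (Fin n → Bool) → Bool} (h : ttab f = ttab g) : f = g := by
  have h1 := List.ofFn_injective h
  funext x
  obtain ⟨k, hk⟩ := exists_testBit x
  have h2 := congrFun h1 k
  have h3 : (fun i : Fin n => k.1.testBit i.1) = x := funext hk
  simpa [h3] using h2

private theorem bin_inj {l s t : ℕ} (hs : s < 2 ^ l) (ht : t < 2 ^ l) (h : bin l s = bin l t) :
    s = t := by
  have h1 := List.ofFn_injective h
  apply Nat.eq_of_testBit_eq
  intro i
  by_cases hi : i < l
  · exact congrFun h1 ⟨i, hi⟩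
  · have e : 2 ^ l ≤ 2 ^ i := Nat.pow_le_pow_right (by norm_num) (not_lt.1 hi)
    rw [Nat.testBit_lt_two_pow (lt_of_lt_of_le hs e), Nat.testBit_lt_two_pow (lt_of_lt_of_le ht e)]

theorem mem_XorAndMCSP {n s : ℕ} (f : (Fin n → Bool) → Bool) (hs : s < 2 ^ (n + 1)) :
    ttab f ++ bin (n + 1) s ∈ XorAndMCSP ↔ XorAnd f s := by
  constructor
  · rintro ⟨n', s', f', hs', he, hx⟩
    have hl := congrArg List.length he
    simp only [List.length_append, ttab, bin, List.length_ofFn] at hl
    have hn : n = n' := by
      rcases lt_trichotomy n n' with h | h | h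
      · have := Nat.pow_lt_pow_right (a := 2) (by norm_num) h
        omega
      · exact h
      · have := Nat.pow_lt_pow_right (a := 2) (by norm_num) h
        omega
    subst hn
    obtain ⟨h1, h2⟩ := List.append_inj he (by simp [ttab])
    have h3 := ttab_inj h1
    have h4 := bin_inj hs hs' h2
    rw [h3, h4]
    exact hx
  · intro h
    exact ⟨n, s, f, hs, rfl, h⟩

end P65
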