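import Mathlib

/-!
# MP_65a708_lc: the minimum circuit size problem for XOR-of-AND circuits is NP-hard

Basic definitions.
* `Term ι`: an AND of literals on the variables `ι` (`none` = the variable does not occur).
* `XorAnd f s`: the Boolean function `f` is the XOR of at most `s` ANDs of literals.
* `T`: the 3-dimensional tensor of a system of elements `C`, tiles `V`, steps `St`.
-/

namespace P65

/-- An AND of literals on the variables `ι`: `c i = some b` means that the literal `x i = b`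
occurs in the AND; `c i = none` means that `x i` does not occur. -/
abbrev Term (ι : Type) := ι → Option Bool

/-- The value of the AND of literals `c` at `x`. -/
def Term.eval {ι : Type} [Fintype ι] (c : Term ι) (x : ι → Bool) : Bool :=
  decide (∀ i, c i = none ∨ c i = some (x i))

/-- The value at `x` of the XOR of the ANDs in the list `ts`. -/
def xorEval {ι : Type} [Fintype ι] (ts : List (Term ι)) (x : ι → Bool) : Bool :=
  (ts.map (fun c => c.eval x)).foldr xor false

/-- `f` is computed by an XOR of at most `s` ANDs of literals. -/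
def XorAnd {ι : Type} [Fintype ι] (f : (ι → Bool) → Bool) (s : ℕ) : Prop :=
  ∃ ts : List (Term ι), ts.length ≤ s ∧ ∀ x, f x = xorEval ts x

/-- Boolean values as elements of `ZMod 2`. -/
def b2z (b : Bool) : ZMod 2 := if b then 1 else 0

/-- A set of points of the cube is a subcube. -/
def IsCube {ι : Type} (S : Set (ι → Bool)) : Prop :=
  ∃ c : Term ι, ∀ x, x ∈ S ↔ ∀ i, c i = none ∨ c i = some (x i)

/-- Two points of the cube that differ in exactly one coordinate. -/
def Adj1 {ι : Type} (x y : ι → Bool) : Prop := ∃ i, x i ≠ y i ∧ ∀ j, j ≠ i → x j = y j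

/-- The tensor: elements `c : C` (slices), tiles `v : V` (rows and columns), steps `i : St`
(private rows and columns); the element `cof i` has base tile `o (cof i)` and the step `i`
joins it to the tile `τ i`; `act c` says that the element `c` has to be covered. -/
def T {V C St : Type} [DecidableEq V] [DecidableEq C] (cof : St → C) (o : C → V) (τ : St → V)
    (act : C → Bool) : (V ⊕ St) → (V ⊕ St) → C → ZMod 2
  | Sum.inl v, Sum.inl v', c => if v = o c ∧ v' = o c ∧ act c = true then 1 else 0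
  | Sum.inr i, Sum.inl v, c => if cof i = c ∧ (v = o c ∨ v = τ i) then 1 else 0
  | Sum.inl v, Sum.inr i, c => if cof i = c ∧ (v = o c ∨ v = τ i) then 1 else 0
  | Sum.inr _, Sum.inr _, _ => 0

/-! ### The crossbar -/

/-- Tiles of the crossbar with `n+1` rows and `m` columns. -/
abbrev VV (n m : ℕ) := (Fin (n+1) × Fin (2*m+3)) ⊕ (Fin m × Fin (2*n+1))

/-- Elements of the crossbar. -/
abbrev CC (n m : ℕ) := (Fin (n+1) × Fin (2*m+2)) ⊕ (Fin m × Fin (2*n+1))

/-- Steps of the crossbar. -/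
abbrev SS (n m : ℕ) (A : Fin (n+1) → Fin m → Bool) :=
  (Fin (n+1) × Fin (2*m+2)) ⊕ (Fin m × Fin (2*n)) ⊕
    {p : Fin (n+1) × Fin m // A p.1 p.2 = true}

/-- Base tile of an element. -/
def oo (n m : ℕ) : CC n m → VV n m
  | Sum.inl p => Sum.inl (p.1, p.2.succ)
  | Sum.inr q => Sum.inr q

/-- The slot position `2u` of the row `u` on a column wire. -/
def pos (n : ℕ) (u : Fin (n+1)) : Fin (2*n+1) := ⟨2 * u.1, by omega⟩

/-- The tile position `2j+2` of the column `j` on a row wire. -/
def tpos (m : ℕ) (j : Fin m) : Fin (2*m+3) := ⟨2 * j.1 + 2, by omega⟩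

/-- The element of a step. -/
def cc (n m : ℕ) (A : Fin (n+1) → Fin m → Bool) : SS n m A → CC n m
  | Sum.inl p => Sum.inl p
  | Sum.inr (Sum.inl q) => Sum.inr (q.1, q.2.succ)
  | Sum.inr (Sum.inr p) => Sum.inr (p.1.2, pos n p.1.1)

/-- The other tile of a step. -/
def tt (n m : ℕ) (A : Fin (n+1) → Fin m → Bool) : SS n m A → VV n m
  | Sum.inl p => Sum.inl (p.1, p.2.castSucc)
  | Sum.inr (Sum.inl q) => Sum.inr (q.1, q.2.castSucc)
  | Sum.inr (Sum.inr p) => Sum.inl (p.1.1, tpos m p.1.2)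

/-- The active elements: all, except the first element of the column wires `j` with
`γ j = false`. -/
def ac (n m : ℕ) (γ : Fin m → Bool) : CC n m → Bool
  | Sum.inl _ => true
  | Sum.inr (j, r) => if r.1 = 0 then γ j else true

/-- The four shapes of the sets of elements covered by one tile. -/
inductive Shape (n m : ℕ) : Set (CC n m) → Prop
  | h1 (p : Fin (n+1) × Fin (2*m+2)) : Shape n m {Sum.inl p}
  | h2 (u : Fin (n+1)) (i : ℕ) (hi : i + 1 < 2*m+2) :
      Shape n m {Sum.inl (u, ⟨i, by omega⟩), Sum.inl (u, ⟨i+1, hi⟩)}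
  | hv (u : Fin (n+1)) (j : Fin m) :
      Shape n m {Sum.inl (u, ⟨2*j.1+1, by omega⟩), Sum.inl (u, ⟨2*j.1+2, by omega⟩),
        Sum.inr (j, pos n u)}
  | v2 (j : Fin m) (r : ℕ) (hr : r + 1 < 2*n+1) :
      Shape n m {Sum.inr (j, ⟨r, by omega⟩), Sum.inr (j, ⟨r+1, hr⟩)}

/-! ### The codes -/

/-- One block of variables. -/
abbrev Blk (ρ κ : ℕ) := Fin ρ ⊕ Fin κ ⊕ Fin 3

/-- A point of the cube of one block. -/
def code {ρ κ : ℕ} (x : Fin ρ → Bool) (y : Fin κ → Bool) (l : Fin 3 → Bool) : Blk ρ κ → Bool :=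
  Sum.elim x (Sum.elim y l)

/-- `g` is a Gray code of length `2 ^ L`. -/
def IsGray (L : ℕ) (g : ℕ → Fin L → Bool) : Prop :=
  (∀ i j, i < 2^L → j < 2^L → g i = g j → i = j) ∧
  (∀ i, i + 1 < 2^L → Adj1 (g i) (g (i+1)))

variable {ρ κ : ℕ}

/-- Codes of the tiles. -/
def kV (n m : ℕ) (gr : ℕ → Fin ρ → Bool) (gc : ℕ → Fin κ → Bool) : VV n m → Blk ρ κ → Bool
  | Sum.inl (u, i) => code (gr (2 * u.1)) (gc i.1) ![false, false, false]
  | Sum.inr (j, r) => code (gr r.1) (gc (2 * j.1 + 2)) ![true, false, false]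

/-- Codes of the rows. -/
def k1 (n m : ℕ) (A : Fin (n+1) → Fin m → Bool) (gr : ℕ → Fin ρ → Bool)
    (gc : ℕ → Fin κ → Bool) : VV n m ⊕ SS n m A → Blk ρ κ → Bool
  | Sum.inl v => kV n m gr gc v
  | Sum.inr (Sum.inl (u, i)) => code (gr (2 * u.1)) (gc (i.1 + 1)) ![false, true, false]
  | Sum.inr (Sum.inr (Sum.inl (j, r))) => code (gr (r.1 + 1)) (gc (2 * j.1 + 2)) ![true, true, false]
  | Sum.inr (Sum.inr (Sum.inr p)) =>
      code (gr (2 * p.1.1.1)) (gc (2 * p.1.2.1 + 2)) ![true, false, true]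

/-- Codes of the columns. -/
def k2 (n m : ℕ) (A : Fin (n+1) → Fin m → Bool) (gr : ℕ → Fin ρ → Bool)
    (gc : ℕ → Fin κ → Bool) : VV n m ⊕ SS n m A → Blk ρ κ → Bool
  | Sum.inl v => kV n m gr gc v
  | Sum.inr (Sum.inl (u, i)) => code (gr (2 * u.1)) (gc i.1) ![false, true, false]
  | Sum.inr (Sum.inr (Sum.inl (j, r))) => code (gr r.1) (gc (2 * j.1 + 2)) ![true, true, false]
  | Sum.inr (Sum.inr (Sum.inr p)) =>
      code (gr (2 * p.1.1.1)) (gc (2 * p.1.2.1 + 2)) ![false, false, true]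

/-- The points of the third block that belong to an element. -/
def zt (n m : ℕ) (gr : ℕ → Fin ρ → Bool) (gc : ℕ → Fin κ → Bool) :
    CC n m → Set (Blk ρ κ → Bool)
  | Sum.inl (u, i) => {code (gr (2 * u.1)) (gc (i.1 + 1)) ![false, false, false]}
  | Sum.inr (j, r) => {code (gr r.1) (gc (2 * j.1 + 2)) ![true, false, false],
      code (gr r.1) (gc (2 * j.1 + 3)) ![true, false, false]}

open Classical in
/-- The function on three blocks defined by a tensor and codes. -/
noncomputable def blockF {V C St B : Type} [Fintype V] [Fintype C] [Fintype St] [DecidableEq V]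
    [DecidableEq C] (cof : St → C) (o : C → V) (τ : St → V) (act : C → Bool)
    (κ1 κ2 : V ⊕ St → B → Bool) (ζ : C → Set (B → Bool)) (x y z : B → Bool) : ZMod 2 :=
  ∑ a, ∑ b, ∑ c, if κ1 a = x ∧ κ2 b = y ∧ z ∈ ζ c then T cof o τ act a b c else 0

/-- The three blocks of an input. -/
def xb {B : Type} (w : B ⊕ B ⊕ B → Bool) : B → Bool := fun i => w (Sum.inl i)
def yb {B : Type} (w : B ⊕ B ⊕ B → Bool) : B → Bool := fun i => w (Sum.inr (Sum.inl i))
def zb {B : Type} (w : B ⊕ B ⊕ B → Bool) : B → Bool := fun i => w (Sum.inr (Sum.inr i))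

/-- The Boolean function of the crossbar. -/
noncomputable def FF (n m : ℕ) (A : Fin (n+1) → Fin m → Bool) (gr : ℕ → Fin ρ → Bool)
    (gc : ℕ → Fin κ → Bool) (γ : Fin m → Bool) (w : Blk ρ κ ⊕ Blk ρ κ ⊕ Blk ρ κ → Bool) : Bool :=
  decide (blockF (cc n m A) (oo n m) (tt n m A) (ac n m γ) (k1 n m A gr gc) (k2 n m A gr gc)
    (zt n m gr gc) (xb w) (yb w) (zb w) = 1)

end P65
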