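import Pool.Agent.Lib.P65.HSProj
import Pool.Agent.Lib.P65.Tseitin
import Pool.Agent.Lib.P65.CnfHS

/-!
Assembly of the projection reduction. Given `L` in NP/poly (`C`, `k` for the input length `m`),
take `Φ` from `tseitin`, `N = |C|+k+1`, `A`, `G` from `cnf_hs` (`n = 2N-1`, `N + |Φ|` columns),
`W` from `hs_proj` with `K = N`. Note `|C| ≤ csize C`. With `t = m^d + d`: `N ≤ 2t+1`,
`N + |Φ| + 1 ≤ 2t+1 + 3t+2 + 1`, so the length is at most
`10^8 ((4t+2)(5t+4))^3 ≤ c (t+1)^6`; use `poly_bound`.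
-/

namespace P65

theorem FinalAux.length_le_csize (C : List Gate) : C.length ≤ csize C := by
  unfold csize
  induction C with
  | nil => simp
  | cons g C ih =>
    rw [List.length_cons, List.map_cons, List.sum_cons]
    have h1 : 1 ≤ g.size := by
      cases g <;> simp [Gate.size]
    omega

theorem npPoly_proj (L : Set (List Bool)) (hL : NPpoly L) : PPolyProj L XorAndMCSP := by
  obtain ⟨d, hd⟩ := hL
  obtain ⟨d', hd'⟩ := poly_bound d (10 ^ 8 * 25 ^ 3) 6
  refine ⟨d', fun m hm => ?_⟩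
  obtain ⟨C, k, hC, hk, hno, hx⟩ := hd m hm
  obtain ⟨Φ, hΦl, hΦ, hΦx⟩ := tseitin m k C hno
  obtain ⟨A, G, hne, hAG⟩ := cnf_hs (C.length + k + 1) (by omega) Φ hΦ
  obtain ⟨W, hW, hWx⟩ := hs_proj (2 * (C.length + k + 1) - 1) (C.length + k + 1 + Φ.length)
    (C.length + k + 1) (by omega) A hne G
  refine ⟨W, ?_, fun x hxm => ?_⟩
  · refine le_trans hW (le_trans ?_ (hd' m hm))
    have hCl : C.length ≤ m ^ d + d := le_trans (FinalAux.length_le_csize C) hC
    generalize m ^ d + d = t at hCl hk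
    have h1 : 2 * (C.length + k + 1) - 1 + 1 ≤ 5 * (t + 1) := by omega
    have h2 : C.length + k + 1 + Φ.length + 1 ≤ 5 * (t + 1) := by omega
    calc 10 ^ 8 * ((2 * (C.length + k + 1) - 1 + 1) * (C.length + k + 1 + Φ.length + 1)) ^ 3
        ≤ 10 ^ 8 * ((5 * (t + 1)) * (5 * (t + 1))) ^ 3 :=
          Nat.mul_le_mul_left _ (Nat.pow_le_pow_left (Nat.mul_le_mul h1 h2) 3)
      _ = 10 ^ 8 * 25 ^ 3 * (t + 1) ^ 6 := by ring
  · rw [hWx x, ← hAG x, ← hΦx x hxm, hx x hxm]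

end P65
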