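import Pool.Agent.Lib.P65.Defs

/-!
Gray codes exist. Induction on `L`: `g_{L+1} i = (0, g_L i)` for `i < 2^L` and
`(1, g_L (2^{L+1} - 1 - i))` for `2^L ≤ i < 2^{L+1}` (use `Fin.cons` or `Fin.snoc`).
(Or: `g i b = xor (i.testBit b) (i.testBit (b+1))`.)
-/

namespace P65

private theorem adj_cons {L : ℕ} (b : Bool) {x y : Fin L → Bool} (h : Adj1 x y) :
    Adj1 (Fin.cons b x : Fin (L + 1) → Bool) (Fin.cons b y) := by
  obtain ⟨i, h1, h2⟩ := h
  refine ⟨i.succ, by simpa using h1, ?_⟩
  intro j
  refine Fin.cases ?_ (fun k => ?_) j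
  · intro _; rfl
  · intro hk
    rw [Fin.cons_succ, Fin.cons_succ]
    exact h2 k (fun hh => hk (by rw [hh]))

private theorem adj_symm {L : ℕ} {x y : Fin L → Bool} (h : Adj1 x y) : Adj1 y x := by
  obtain ⟨i, h1, h2⟩ := h
  exact ⟨i, h1.symm, fun j hj => (h2 j hj).symm⟩

theorem gray_exists (L : ℕ) : ∃ g : ℕ → Fin L → Bool, IsGray L g := by
  induction L with
  | zero =>
    refine ⟨fun _ _ => false, ?_, ?_⟩
    · intro i j hi hj _
      rw [pow_zero] at hi hj
      omega
    · intro i hi
      rw [pow_zero] at hi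
      omega
  | succ L ih =>
    obtain ⟨g, h1, h2⟩ := ih
    have hp : 0 < 2 ^ L := Nat.two_pow_pos L
    refine ⟨fun i => if i < 2 ^ L then Fin.cons false (g i)
      else Fin.cons true (g (2 ^ (L + 1) - 1 - i)), ?_, ?_⟩
    · intro i j hi hj hij
      rw [pow_succ] at hi hj hij
      by_cases hi' : i < 2 ^ L <;> by_cases hj' : j < 2 ^ L
      · simp only [if_pos hi', if_pos hj'] at hij
        exact h1 i j hi' hj' (Fin.cons_injective2 hij).2
      · simp only [if_pos hi', if_neg hj'] at hij
        exact absurd (Fin.cons_injective2 hij).1 (by simp)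
      · simp only [if_neg hi', if_pos hj'] at hij
        exact absurd (Fin.cons_injective2 hij).1 (by simp)
      · simp only [if_neg hi', if_neg hj'] at hij
        have h3 := h1 _ _ (by omega) (by omega) (Fin.cons_injective2 hij).2
        omega
    · intro i hi
      rw [pow_succ] at hi ⊢
      by_cases hi' : i + 1 < 2 ^ L
      · simp only [if_pos hi', if_pos (show i < 2 ^ L by omega)]
        exact adj_cons false (h2 i hi')
      · by_cases hi2 : i < 2 ^ L
        · simp only [if_neg hi', if_pos hi2]
          have h3 : 2 ^ L * 2 - 1 - (i + 1) = i := by omega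
          rw [h3]
          refine ⟨0, by simp, ?_⟩
          intro j
          refine Fin.cases ?_ (fun k => ?_) j
          · intro hk; exact absurd rfl hk
          · intro _; rw [Fin.cons_succ, Fin.cons_succ]
        · simp only [if_neg hi', if_neg hi2]
          have h3 : 2 ^ L * 2 - 1 - i = (2 ^ L * 2 - 1 - (i + 1)) + 1 := by omega
          rw [h3]
          exact adj_cons true (adj_symm (h2 _ (by omega)))

end P65
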