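import Mathlib

/-!
Polynomial bounds. For `m = 1`: `c (d+2)^e ≤ 1 + d'` if `d'` is large. For `m ≥ 2`:
`c (m^d + d + 1)^e ≤ c (d+2)^e m^(d e) ≤ m^(d e + c (d+2)^e)` as `2^t ≥ t`.
-/

namespace P65

theorem poly_bound (d c e : ℕ) : ∃ d' : ℕ, ∀ m : ℕ, 1 ≤ m →
    c * (m ^ d + d + 1) ^ e ≤ m ^ d' + d' := by
  refine ⟨d * e + c * (d + 2) ^ e, fun m hm => ?_⟩
  set K := c * (d + 2) ^ e with hK
  have h1 : 1 ≤ m ^ d := Nat.one_le_pow _ _ hm
  have h2 : m ^ d + d + 1 ≤ (d + 2) * m ^ d := by nlinarith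
  have h3 : c * (m ^ d + d + 1) ^ e ≤ K * m ^ (d * e) := by
    calc c * (m ^ d + d + 1) ^ e ≤ c * ((d + 2) * m ^ d) ^ e :=
          Nat.mul_le_mul_left _ (Nat.pow_le_pow_left h2 _)
      _ = K * m ^ (d * e) := by rw [hK, mul_pow, ← pow_mul, mul_assoc]
  refine h3.trans ?_
  rcases Nat.lt_or_ge 1 m with h | h
  · have h4 : K ≤ m ^ K :=
      (Nat.lt_two_pow_self (n := K)).le.trans (Nat.pow_le_pow_left h K)
    calc K * m ^ (d * e) ≤ m ^ K * m ^ (d * e) := Nat.mul_le_mul_right _ h4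
      _ = m ^ (d * e + K) := by rw [← pow_add, add_comm]
      _ ≤ _ := Nat.le_add_right _ _
  · have h5 : m = 1 := le_antisymm h hm
    rw [h5]
    simp only [one_pow, mul_one]
    omega

/-- A power of two between `x` and `2 x`. -/
theorem two_pow_between (x : ℕ) (hx : 1 ≤ x) : ∃ t : ℕ, x ≤ 2 ^ t ∧ 2 ^ t ≤ 2 * x := by
  refine ⟨Nat.log 2 x + 1, (Nat.lt_pow_succ_log_self (by norm_num) x).le, ?_⟩
  have h := Nat.pow_log_le_self 2 (show x ≠ 0 by omega)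
  rw [pow_succ]
  omega

end P65
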