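import Pool.Agent.Lib.P65.CodeInj

/-!
Every bit of the truth table of `FF` is a constant or one of the gating bits `γ j`.
By `k1_inj`, `k2_inj`, `zt_disj` at most one summand `(a,b,c)` of `blockF` has `κ1 a = x`,
`κ2 b = y`, `z ∈ ζ c`; its value `T a b c` depends on `γ` only for `a = b = inl (oo c)`,
`c = inr (j, 0)`, when it is `1` iff `γ j`.
-/

namespace P65

variable {ρ κ n m : ℕ}

theorem proj (A : Fin (n+1) → Fin m → Bool) (gr : ℕ → Fin ρ → Bool)
    (gc : ℕ → Fin κ → Bool) (hgr : IsGray ρ gr) (hgc : IsGray κ gc) (hρ : 2*n+1 ≤ 2^ρ)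
    (hκ : 2*m+3 ≤ 2^κ) (w : Blk ρ κ ⊕ Blk ρ κ ⊕ Blk ρ κ → Bool) :
    (∃ j, ∀ γ, FF n m A gr gc γ w = γ j) ∨ (∃ b, ∀ γ, FF n m A gr gc γ w = b) := by
  classical
  by_cases hex : ∃ a b c, k1 n m A gr gc a = xb w ∧ k2 n m A gr gc b = yb w ∧
      zb w ∈ zt n m gr gc c
  · obtain ⟨a0, b0, c0, h1, h2, h3⟩ := hex
    have hc : ∀ a b c, (k1 n m A gr gc a = xb w ∧ k2 n m A gr gc b = yb w ∧
        zb w ∈ zt n m gr gc c) → (a = a0 ∧ b = b0 ∧ c = c0) := by
      rintro a b c ⟨g1, g2, g3⟩
      exact ⟨k1_inj A hgr hgc hρ hκ (g1.trans h1.symm), k2_inj A hgr hgc hρ hκ (g2.trans h2.symm),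
        zt_disj hgr hgc hρ hκ c c0 (zb w) g3 h3⟩
    have key : ∀ γ, blockF (cc n m A) (oo n m) (tt n m A) (ac n m γ) (k1 n m A gr gc)
        (k2 n m A gr gc) (zt n m gr gc) (xb w) (yb w) (zb w) =
        T (cc n m A) (oo n m) (tt n m A) (ac n m γ) a0 b0 c0 := by
      intro γ
      unfold blockF
      rw [Finset.sum_eq_single a0, Finset.sum_eq_single b0, Finset.sum_eq_single c0,
        if_pos ⟨h1, h2, h3⟩]
      · intro c _ hne
        rw [if_neg]
        intro hcon
        exact hne (hc _ _ _ hcon).2.2
      · intro hcon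
        exact absurd (Finset.mem_univ _) hcon
      · intro b _ hne
        refine Finset.sum_eq_zero fun c _ => ?_
        rw [if_neg]
        intro hcon
        exact hne (hc _ _ _ hcon).2.1
      · intro hcon
        exact absurd (Finset.mem_univ _) hcon
      · intro a _ hne
        refine Finset.sum_eq_zero fun b _ => Finset.sum_eq_zero fun c _ => ?_
        rw [if_neg]
        intro hcon
        exact hne (hc _ _ _ hcon).1
      · intro hcon
        exact absurd (Finset.mem_univ _) hcon
    have key2 : ∀ γ, FF n m A gr gc γ w =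
        decide (T (cc n m A) (oo n m) (tt n m A) (ac n m γ) a0 b0 c0 = 1) := by
      intro γ
      unfold FF
      rw [key γ]
    rcases a0 with v | i
    · rcases b0 with v' | i'
      · by_cases hv : v = oo n m c0 ∧ v' = oo n m c0
        · rcases c0 with p | ⟨j, r⟩
          · right
            refine ⟨true, fun γ => ?_⟩
            have hT : T (cc n m A) (oo n m) (tt n m A) (ac n m γ) (Sum.inl v) (Sum.inl v')
                (Sum.inl p) = 1 := if_pos ⟨hv.1, hv.2, rfl⟩
            rw [key2 γ, hT]
            simp
          · by_cases hr : r.1 = 0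
            · left
              refine ⟨j, fun γ => ?_⟩
              have hac : ac n m γ (Sum.inr (j, r)) = γ j := if_pos hr
              cases hg : γ j
              · have hT : T (cc n m A) (oo n m) (tt n m A) (ac n m γ) (Sum.inl v) (Sum.inl v')
                    (Sum.inr (j, r)) = 0 := if_neg (fun e => by
                      have e2 := e.2.2
                      rw [hac, hg] at e2
                      exact Bool.noConfusion e2)
                rw [key2 γ, hT]
                simp
              · have hT : T (cc n m A) (oo n m) (tt n m A) (ac n m γ) (Sum.inl v) (Sum.inl v')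
                    (Sum.inr (j, r)) = 1 := if_pos ⟨hv.1, hv.2, hac.trans hg⟩
                rw [key2 γ, hT]
                simp
            · right
              refine ⟨true, fun γ => ?_⟩
              have hac : ac n m γ (Sum.inr (j, r)) = true := if_neg hr
              have hT : T (cc n m A) (oo n m) (tt n m A) (ac n m γ) (Sum.inl v) (Sum.inl v')
                  (Sum.inr (j, r)) = 1 := if_pos ⟨hv.1, hv.2, hac⟩
              rw [key2 γ, hT]
              simp
        · right
          refine ⟨false, fun γ => ?_⟩
          have hT : T (cc n m A) (oo n m) (tt n m A) (ac n m γ) (Sum.inl v) (Sum.inl v')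
              c0 = 0 := if_neg (fun e => hv ⟨e.1, e.2.1⟩)
          rw [key2 γ, hT]
          simp
      · right
        exact ⟨decide (T (cc n m A) (oo n m) (tt n m A) (ac n m (fun _ => true))
          (Sum.inl v) (Sum.inr i') c0 = 1), fun γ => key2 γ⟩
    · rcases b0 with v' | i'
      · right
        exact ⟨decide (T (cc n m A) (oo n m) (tt n m A) (ac n m (fun _ => true))
          (Sum.inr i) (Sum.inl v') c0 = 1), fun γ => key2 γ⟩
      · right
        exact ⟨decide (T (cc n m A) (oo n m) (tt n m A) (ac n m (fun _ => true))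
          (Sum.inr i) (Sum.inr i') c0 = 1), fun γ => key2 γ⟩
  · right
    refine ⟨false, fun γ => ?_⟩
    have h0 : blockF (cc n m A) (oo n m) (tt n m A) (ac n m γ) (k1 n m A gr gc)
        (k2 n m A gr gc) (zt n m gr gc) (xb w) (yb w) (zb w) = 0 := by
      unfold blockF
      refine Finset.sum_eq_zero fun a _ => Finset.sum_eq_zero fun b _ =>
        Finset.sum_eq_zero fun c _ => ?_
      rw [if_neg]
      intro hcon
      exact hex ⟨a, b, c, hcon⟩
    unfold FF
    rw [h0]
    simp

end P65
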