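import Pool.Agent.Lib.P65.Inst
import Pool.Agent.Lib.P65.Proj
import Pool.Agent.Lib.P65.Gray
import Pool.Agent.Lib.P65.Decode
import Pool.Agent.Lib.P65.PolyB

/-!
The projection for one gated set system. Given `A`, `G`, choose `ρ, κ` with
`2n+1 ≤ 2^ρ ≤ 2(2n+1)` and `2m+3 ≤ 2^κ ≤ 2(2m+3)` (`two_pow_between`), Gray codes `gr`, `gc`, and
the equivalence `e` between `Blk ρ κ ⊕ Blk ρ κ ⊕ Blk ρ κ` and `Fin M`, `M = 3(ρ+κ+3)`
(`Fintype.equivFinOfCardEq`). The instance is `ttab f_x ++ bin (M+1) s` with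
`f_x = fun w => FF n m A gr gc (fun j => (G j).eval x) (fun i => w (e i))` (`xorAnd_equiv`), and
`s = 2 |SS| + ((n+1)(m+1) + m n) + K`, where `|SS| ≤ (n+1)(2m+2) + 2 m n + (n+1) m`, `K ≤ n + 1`,
so `s ≤ 13 (n+1)(m+1) < 2 ^ (M+1)` (`2^M = 512 (2^ρ 2^κ)^3`). By `proj` every bit of `ttab f_x` is
a constant or `(G j).eval x`, i.e. the value of a projection symbol that does not depend on `x`;
the bits of `s` are constants. So `W` is a fixed list of symbols (choose the symbols of the truth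
table with `Classical.choice` from `proj`). The length is
`2^M + M + 1 ≤ 2 * 2^M + 1 ≤ 1024 (2 (2n+1) * 2 (2m+3))^3 + 1 ≤ 10^8 ((n+1)(m+1))^3`.
Then `mem_XorAndMCSP` and `inst`.
-/

namespace P65

namespace HSProjAux

theorem card_SS (n m : ℕ) (A : Fin (n+1) → Fin m → Bool) :
    Fintype.card (SS n m A) ≤ (n+1) * (2*m+2) + m * (2*n) + (n+1) * m := by
  have h1 : Fintype.card {p : Fin (n+1) × Fin m // A p.1 p.2 = true} ≤ (n+1) * m := by
    refine (Fintype.card_subtype_le _).trans ?_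
    simp
  have h2 : Fintype.card (SS n m A) = (n+1) * (2*m+2) + (m * (2*n) +
      Fintype.card {p : Fin (n+1) × Fin m // A p.1 p.2 = true}) := by
    rw [Fintype.card_sum, Fintype.card_sum, Fintype.card_prod, Fintype.card_prod]
    simp only [Fintype.card_fin]
  rw [h2]
  omega

theorem arith1 {n m a b M : ℕ} (ha : 2*n+1 ≤ a) (hb : 2*m+3 ≤ b) (hM : 2 ^ M = 512 * (a * b) ^ 3) :
    13 * ((n+1) * (m+1)) < 2 ^ (M + 1) := by
  have h1 : (n+1) * (m+1) ≤ a * b := Nat.mul_le_mul (by omega) (by omega)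
  have h0 : 1 ≤ (n+1) * (m+1) := Nat.mul_pos (by omega) (by omega)
  have h2 : a * b ≤ (a * b) ^ 3 := Nat.le_self_pow (by norm_num) _
  rw [pow_succ, hM]
  omega

theorem arith2 {n m a b M : ℕ} (ha : a ≤ 2 * (2*n+1)) (hb : b ≤ 2 * (2*m+3))
    (hM : 2 ^ M = 512 * (a * b) ^ 3) :
    2 ^ M + (M + 1) ≤ 10 ^ 8 * ((n+1) * (m+1)) ^ 3 := by
  have h1 : a * b ≤ 24 * ((n+1) * (m+1)) := by
    calc a * b ≤ (4 * (n+1)) * (6 * (m+1)) := Nat.mul_le_mul (by omega) (by omega)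
      _ = 24 * ((n+1) * (m+1)) := by ring
  have h2 : (a * b) ^ 3 ≤ 13824 * ((n+1) * (m+1)) ^ 3 := by
    calc (a * b) ^ 3 ≤ (24 * ((n+1) * (m+1))) ^ 3 := Nat.pow_le_pow_left h1 3
      _ = 13824 * ((n+1) * (m+1)) ^ 3 := by ring
  have h3 : M + 1 ≤ 2 ^ M := Nat.lt_two_pow_self
  omega

end HSProjAux

open HSProjAux

theorem hs_proj (n m K : ℕ) (hK : K ≤ n + 1) (A : Fin (n+1) → Fin m → Bool)
    (hne : ∀ j, ∃ u, A u j = true) (G : Fin m → PS) :
    ∃ W : List PS, W.length ≤ 10 ^ 8 * ((n+1) * (m+1)) ^ 3 ∧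
      ∀ x : List Bool, (W.map (PS.eval x) ∈ XorAndMCSP ↔
        ∃ U : Finset (Fin (n+1)), U.card ≤ K ∧
          ∀ j, (G j).eval x = true → ∃ u ∈ U, A u j = true) := by
  obtain ⟨ρ, hρ1, hρ2⟩ := two_pow_between (2*n+1) (by omega)
  obtain ⟨κ, hκ1, hκ2⟩ := two_pow_between (2*m+3) (by omega)
  obtain ⟨gr, hgr⟩ := gray_exists ρ
  obtain ⟨gc, hgc⟩ := gray_exists κ
  obtain ⟨M, hMc⟩ : ∃ M, M = Fintype.card (Blk ρ κ ⊕ Blk ρ κ ⊕ Blk ρ κ) := ⟨_, rfl⟩
  have hMv : M = 3 * (ρ + κ + 3) := by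
    rw [hMc]
    simp only [Fintype.card_sum, Fintype.card_fin]
    ring
  have hM2 : 2 ^ M = 512 * (2 ^ ρ * 2 ^ κ) ^ 3 := by
    rw [hMv, pow_mul', pow_add, pow_add]
    ring
  let e : (Blk ρ κ ⊕ Blk ρ κ ⊕ Blk ρ κ) ≃ Fin M := Fintype.equivFinOfCardEq hMc.symm
  obtain ⟨s, hs⟩ : ∃ s, s = 2 * Fintype.card (SS n m A) + ((n+1)*(m+1) + m*n) + K := ⟨_, rfl⟩
  have hs1 : s < 2 ^ (M + 1) := by
    refine lt_of_le_of_lt ?_ (arith1 hρ1 hκ1 hM2)
    have h1 := card_SS n m A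
    have h2 : (n+1) * (2*m+2) = 2 * ((n+1) * (m+1)) := by ring
    have h3 : m * n ≤ (n+1) * (m+1) := by nlinarith
    have h4 : (n+1) * m ≤ (n+1) * (m+1) := Nat.mul_le_mul (le_refl _) (by omega)
    have h5 : n + 1 ≤ (n+1) * (m+1) := Nat.le_mul_of_pos_right _ (by omega)
    have h6 : m * (2*n) = 2 * (m * n) := by ring
    rw [hs]
    omega
  let g : (Fin m → Bool) → (Fin M → Bool) → Bool := fun γ w =>
    FF n m A gr gc γ (fun i => w (e i))
  have hsym : ∀ k : Fin (2 ^ M), ∃ p : PS, ∀ x : List Bool,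
      p.eval x = g (fun j => (G j).eval x) (fun i => k.1.testBit i.1) := by
    intro k
    rcases proj A gr gc hgr hgc hρ1 hκ1
      (fun i => (fun b : Fin M => k.1.testBit b.1) (e i)) with ⟨j, hj⟩ | ⟨b, hb⟩
    · exact ⟨G j, fun x => (hj (fun j => (G j).eval x)).symm⟩
    · exact ⟨PS.cst b, fun x => (hb (fun j => (G j).eval x)).symm⟩
  choose sym hsym using hsym
  refine ⟨List.ofFn sym ++ (bin (M + 1) s).map PS.cst, ?_, fun x => ?_⟩
  · rw [List.length_append, List.length_ofFn, List.length_map, bin, List.length_ofFn]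
    exact arith2 hρ2 hκ2 hM2
  · have hmap : (List.ofFn sym ++ (bin (M + 1) s).map PS.cst).map (PS.eval x)
        = ttab (g (fun j => (G j).eval x)) ++ bin (M + 1) s := by
      rw [List.map_append, List.map_ofFn, List.map_map]
      congr 1
      · rw [ttab]
        congr 1
        funext k
        exact hsym k x
      · have h1 : (PS.eval x ∘ PS.cst) = id := by
          funext b
          rfl
        rw [h1, List.map_id]
    rw [hmap]
    refine (mem_XorAndMCSP _ hs1).trans ?_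
    refine (xorAnd_equiv e (FF n m A gr gc (fun j => (G j).eval x)) s).trans ?_
    rw [hs]
    exact inst A gr gc hgr hgc hρ1 hκ1 hne _ K

end P65
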