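import Pool.Agent.Lib.P65.Defs

/-!
XOR of ANDs as a sum in `ZMod 2`; change of the index type of the variables.
-/

namespace P65

namespace XorZAux

theorem b2z_xor (a b : Bool) : b2z (xor a b) = b2z a + b2z b := by
  cases a <;> cases b <;> decide

theorem b2z_and (a b : Bool) : b2z (a && b) = b2z a * b2z b := by
  cases a <;> cases b <;> decide

/-- renaming the variables in one term -/
theorem eval_comp {ι ι' : Type} [Fintype ι] [Fintype ι'] (e : ι ≃ ι') (c : Term ι')
    (x : ι' → Bool) :
    Term.eval (fun i => c (e i)) (fun i => x (e i)) = Term.eval c x := by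
  unfold Term.eval
  congr 1
  apply propext
  constructor
  · intro h j
    have := h (e.symm j)
    simpa only [e.apply_symm_apply] using this
  · intro h i
    exact h (e i)

theorem xorEval_comp {ι ι' : Type} [Fintype ι] [Fintype ι'] (e : ι ≃ ι') (ts : List (Term ι'))
    (x : ι' → Bool) :
    xorEval (ts.map (fun c i => c (e i))) (fun i => x (e i)) = xorEval ts x := by
  unfold xorEval
  rw [List.map_map]
  congr 1
  apply List.map_congr_left
  intro c _
  exact eval_comp e c x

end XorZAux

theorem b2z_inj {a b : Bool} (h : b2z a = b2z b) : a = b := by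
  revert h
  cases a <;> cases b <;> decide

theorem b2z_decide (z : ZMod 2) : b2z (decide (z = 1)) = z := by
  revert z
  decide

theorem xorEval_z {ι : Type} [Fintype ι] (ts : List (Term ι)) (x : ι → Bool) :
    b2z (xorEval ts x) = (ts.map (fun c => b2z (c.eval x))).sum := by
  unfold xorEval
  induction ts with
  | nil => rfl
  | cons c ts ih =>
    rw [List.map_cons, List.map_cons, List.foldr_cons, List.sum_cons, XorZAux.b2z_xor, ih]

theorem eval_eq_true {ι : Type} [Fintype ι] (c : Term ι) (x : ι → Bool) :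
    c.eval x = true ↔ ∀ i, c i = none ∨ c i = some (x i) := by
  unfold Term.eval
  rw [decide_eq_true_eq]

/-- Renaming the variables does not change the size. -/
theorem xorAnd_equiv {ι ι' : Type} [Fintype ι] [Fintype ι'] (e : ι ≃ ι')
    (f : (ι → Bool) → Bool) (s : ℕ) :
    XorAnd (fun x : ι' → Bool => f (fun i => x (e i))) s ↔ XorAnd f s := by
  constructor
  · rintro ⟨ts, h1, h2⟩
    refine ⟨ts.map (fun c i => c (e i)), by rw [List.length_map]; exact h1, fun x => ?_⟩
    have h3 := h2 (fun j => x (e.symm j))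
    have h4 : (fun i => (fun j => x (e.symm j)) (e i)) = x := by
      funext i
      simp
    have h5 := XorZAux.xorEval_comp e ts (fun j => x (e.symm j))
    rw [h4] at h5
    simp only at h3
    rw [h5, ← h3]
    congr 1
    funext i
    simp
  · rintro ⟨ts, h1, h2⟩
    refine ⟨ts.map (fun c j => c (e.symm j)), by rw [List.length_map]; exact h1, fun x => ?_⟩
    have h3 := h2 (fun i => x (e i))
    have h5 := XorZAux.xorEval_comp e.symm ts (fun i => x (e i))
    have h4 : (fun j => (fun i => x (e i)) (e.symm j)) = x := by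
      funext j
      simp
    rw [h4] at h5
    rw [h5, ← h3]

/-- A term on three blocks is a product of three functions of one block each. -/
theorem eval_blocks {B : Type} [Fintype B] (c : Term (B ⊕ B ⊕ B)) :
    ∃ p q r : (B → Bool) → ZMod 2, ∀ w : B ⊕ B ⊕ B → Bool,
      b2z (c.eval w) = p (xb w) * q (yb w) * r (zb w) := by
  refine ⟨fun u => b2z (Term.eval (fun i => c (Sum.inl i)) u),
    fun u => b2z (Term.eval (fun i => c (Sum.inr (Sum.inl i))) u),
    fun u => b2z (Term.eval (fun i => c (Sum.inr (Sum.inr i))) u), fun w => ?_⟩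
  rw [← XorZAux.b2z_and, ← XorZAux.b2z_and]
  congr 1
  rw [Bool.eq_iff_iff, Bool.and_eq_true, Bool.and_eq_true, eval_eq_true, eval_eq_true,
    eval_eq_true, eval_eq_true]
  constructor
  · intro h
    exact ⟨⟨fun i => h (Sum.inl i), fun i => h (Sum.inr (Sum.inl i))⟩,
      fun i => h (Sum.inr (Sum.inr i))⟩
  · rintro ⟨⟨h1, h2⟩, h3⟩ (i | i | i)
    · exact h1 i
    · exact h2 i
    · exact h3 i

open Classical in
/-- Three subcubes (one for each block) are given by one term. -/
theorem term_of_cubes {B : Type} [Fintype B] (S1 S2 S3 : Set (B → Bool)) (h1 : IsCube S1)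
    (h2 : IsCube S2) (h3 : IsCube S3) :
    ∃ c : Term (B ⊕ B ⊕ B), ∀ w : B ⊕ B ⊕ B → Bool,
      b2z (c.eval w) = if xb w ∈ S1 ∧ yb w ∈ S2 ∧ zb w ∈ S3 then 1 else 0 := by
  obtain ⟨c1, h1⟩ := h1
  obtain ⟨c2, h2⟩ := h2
  obtain ⟨c3, h3⟩ := h3
  refine ⟨Sum.elim c1 (Sum.elim c2 c3), fun w => ?_⟩
  have key : Term.eval (Sum.elim c1 (Sum.elim c2 c3)) w = true ↔
      xb w ∈ S1 ∧ yb w ∈ S2 ∧ zb w ∈ S3 := by
    rw [eval_eq_true, h1, h2, h3]
    constructor
    · intro h
      exact ⟨fun i => h (Sum.inl i), fun i => h (Sum.inr (Sum.inl i)),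
        fun i => h (Sum.inr (Sum.inr i))⟩
    · rintro ⟨k1, k2, k3⟩ (i | i | i)
      · exact k1 i
      · exact k2 i
      · exact k3 i
  by_cases h : xb w ∈ S1 ∧ yb w ∈ S2 ∧ zb w ∈ S3
  · rw [if_pos h, key.mpr h]
    rfl
  · rw [if_neg h]
    have h0 : Term.eval (Sum.elim c1 (Sum.elim c2 c3)) w = false := by
      rw [← Bool.not_eq_true]
      exact fun h' => h (key.mp h')
    rw [h0]
    rfl

end P65
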