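import Pool.Agent.Lib.P65.UBId
import Pool.Agent.Lib.P65.XorZ
import Pool.Agent.Lib.P65.Cube

/-!
Upper bound for the number of ANDs. By `T_id`, `T a b c` is a sum of `2 |St| + |S|` indicators of
products `Pa × Pb × Pc`; inserting this in `blockF` and using that `κ1, κ2` are injective and the
`ζ c` are disjoint, `blockF x y z` is the sum of the indicators of
`κ1 '' Pa × κ2 '' Pb × (⋃ c ∈ Pc, ζ c)`. Each of the three sets is a subcube by the hypotheses
(the sets `κ1 '' {inr i} = {κ1 (inr i)}` are points: `isCube_singleton`), so each product is a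
term (`term_of_cubes`). The list of the `2 |St| + |S|` terms proves the claim (`xorEval_z`,
`b2z_inj`, `b2z_decide`).
-/

namespace P65

namespace UBBitsAux

lemma sum_unique {α : Type} [Fintype α] (p : α → Prop) [DecidablePred p]
    [Decidable (∃ a, p a)] (h : ∀ a a', p a → p a' → a = a') :
    ∑ a, (if p a then (1 : ZMod 2) else 0) = if ∃ a, p a then 1 else 0 := by
  by_cases he : ∃ a, p a
  · rw [if_pos he]
    obtain ⟨a, ha⟩ := he
    rw [Finset.sum_eq_single a]
    · simp [ha]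
    · intro b _ hb
      rw [if_neg]
      intro hpb
      exact hb (h _ _ hpb ha)
    · intro h; exact absurd (Finset.mem_univ _) h
  · rw [if_neg he]
    apply Finset.sum_eq_zero
    intro a _
    rw [if_neg]
    intro hpa
    exact he ⟨a, hpa⟩

/-- the functional -/
noncomputable def L {α β γ : Type} [Fintype α] [Fintype β] [Fintype γ]
    (W : α → β → γ → ZMod 2) : (α → β → γ → ZMod 2) →+ ZMod 2 :=
  AddMonoidHom.mk' (fun g => ∑ a, ∑ b, ∑ c, W a b c * g a b c) (by
    intro g h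
    simp [mul_add, Finset.sum_add_distrib])

lemma LL_apply {α β γ : Type} [Fintype α] [Fintype β] [Fintype γ]
    (W g : α → β → γ → ZMod 2) : L W g = ∑ a, ∑ b, ∑ c, W a b c * g a b c := rfl

open Classical in
lemma L_ind {α β γ B : Type} [Fintype α] [Fintype β] [Fintype γ]
    (κ1 : α → B → Bool) (κ2 : β → B → Bool) (h1 : Function.Injective κ1)
    (h2 : Function.Injective κ2)
    (ζ : γ → Set (B → Bool)) (hd : ∀ c c' z, z ∈ ζ c → z ∈ ζ c' → c = c')
    (P : α → Prop) (Q : β → Prop) (R : γ → Prop) (x y z : B → Bool) :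
    L (fun a b c => if κ1 a = x ∧ κ2 b = y ∧ z ∈ ζ c then (1 : ZMod 2) else 0)
      (fun a b c => if P a ∧ Q b ∧ R c then (1 : ZMod 2) else 0) =
    if (∃ a, P a ∧ κ1 a = x) ∧ (∃ b, Q b ∧ κ2 b = y) ∧ (∃ c, R c ∧ z ∈ ζ c) then 1 else 0 := by
  rw [LL_apply]
  have e : ∀ a b c, (if κ1 a = x ∧ κ2 b = y ∧ z ∈ ζ c then (1 : ZMod 2) else 0) *
      (if P a ∧ Q b ∧ R c then (1 : ZMod 2) else 0) =
      (if P a ∧ κ1 a = x then (1 : ZMod 2) else 0) * ((if Q b ∧ κ2 b = y then 1 else 0) *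
      (if R c ∧ z ∈ ζ c then 1 else 0)) := by
    intro a b c
    by_cases q1 : P a <;> by_cases q2 : κ1 a = x <;> by_cases q3 : Q b <;>
      by_cases q4 : κ2 b = y <;> by_cases q5 : R c <;> by_cases q6 : z ∈ ζ c <;>
      simp [q1, q2, q3, q4, q5, q6]
  simp only [e]
  simp only [← Finset.mul_sum, ← Finset.sum_mul]
  rw [sum_unique (fun a => P a ∧ κ1 a = x) (fun a a' ha ha' => h1 (ha.2.trans ha'.2.symm)),
    sum_unique (fun b => Q b ∧ κ2 b = y) (fun a a' ha ha' => h2 (ha.2.trans ha'.2.symm)),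
    sum_unique (fun c => R c ∧ z ∈ ζ c) (fun a a' ha ha' => hd _ _ _ ha.2 ha'.2)]
  by_cases q1 : ∃ a, P a ∧ κ1 a = x <;> by_cases q2 : ∃ b, Q b ∧ κ2 b = y <;>
    by_cases q3 : ∃ c, R c ∧ z ∈ ζ c <;> simp only [q1, q2, q3] <;> simp

/-- the set of points of one factor -/
def imS {α B : Type} (κ : α → B → Bool) (P : α → Prop) : Set (B → Bool) :=
  {x | ∃ a, P a ∧ κ a = x}

lemma isCube_imS_or {α B : Type} (κ : α → B → Bool) (a b : α) (q : Prop)
    (h : IsCube {κ a, κ b}) : IsCube (imS κ (fun x => x = a ∨ (q ∧ x = b))) := by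
  by_cases hq : q
  · convert h using 1
    ext x
    simp only [imS, Set.mem_ofPred_eq, Set.mem_insert_iff, Set.mem_singleton_iff]
    constructor
    · rintro ⟨y, hy, rfl⟩
      rcases hy with rfl | ⟨_, rfl⟩
      · left; rfl
      · right; rfl
    · rintro (rfl | rfl)
      · exact ⟨a, Or.inl rfl, rfl⟩
      · exact ⟨b, Or.inr ⟨hq, rfl⟩, rfl⟩
  · convert isCube_singleton (κ a) using 1
    ext x
    simp only [imS, Set.mem_ofPred_eq, Set.mem_singleton_iff]
    constructor
    · rintro ⟨y, hy, rfl⟩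
      rcases hy with rfl | ⟨h, _⟩
      · rfl
      · exact absurd h hq
    · rintro rfl
      exact ⟨a, Or.inl rfl, rfl⟩

lemma isCube_imS_pair {α B : Type} (κ : α → B → Bool) (a b : α)
    (h : IsCube {κ a, κ b}) : IsCube (imS κ (fun x => x = a ∨ x = b)) := by
  have := isCube_imS_or κ a b True h
  simpa using this

lemma isCube_imS_single {α B : Type} (κ : α → B → Bool) (a : α) :
    IsCube (imS κ (fun x => x = a)) := by
  convert isCube_singleton (κ a) using 1
  ext x
  simp only [imS, Set.mem_ofPred_eq, Set.mem_singleton_iff]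
  constructor
  · rintro ⟨y, rfl, rfl⟩; rfl
  · rintro rfl; exact ⟨a, rfl, rfl⟩

end UBBitsAux

open UBBitsAux

theorem ub_bits {V C St B : Type} [Fintype V] [Fintype C] [Fintype St] [Fintype B]
    [DecidableEq V] [DecidableEq C] (cof : St → C) (o : C → V) (τ : St → V) (act : C → Bool)
    (hτo : ∀ i, τ i ≠ o (cof i)) (hinj : ∀ i j, cof i = cof j → τ i = τ j → i = j)
    (κ1 κ2 : V ⊕ St → B → Bool) (h1 : Function.Injective κ1) (h2 : Function.Injective κ2)
    (ζ : C → Set (B → Bool)) (hd : ∀ c c' z, z ∈ ζ c → z ∈ ζ c' → c = c')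
    (cov : C → Option V) (hcov0 : ∀ c, cov c = none ↔ act c = false)
    (hcov : ∀ c v, cov c = some v → v = o c ∨ ∃ i, cof i = c ∧ τ i = v)
    (S : Finset V) (hS : ∀ c v, cov c = some v → v ∈ S)
    (hζ : ∀ c, IsCube (ζ c))
    (hSc : ∀ v ∈ S, IsCube {z | ∃ c, cov c = some v ∧ z ∈ ζ c})
    (ha : ∀ i, IsCube {κ1 (Sum.inl (o (cof i))), κ1 (Sum.inl (τ i))})
    (hb : ∀ i, IsCube {κ2 (Sum.inl (o (cof i))), κ2 (Sum.inl (τ i))})
    (hc : ∀ i, IsCube {κ1 (Sum.inr i), κ1 (Sum.inl (o (cof i)))})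
    (hd' : ∀ i, IsCube {κ2 (Sum.inr i), κ2 (Sum.inl (τ i))}) :
    XorAnd (fun w : B ⊕ B ⊕ B → Bool =>
      decide (blockF cof o τ act κ1 κ2 ζ (xb w) (yb w) (zb w) = 1))
      (2 * Fintype.card St + S.card) := by
  classical
  have hz1 : ∀ i : St, IsCube {z | ∃ c, c = cof i ∧ z ∈ ζ c} := by
    intro i
    convert hζ (cof i) using 1
    ext z
    simp
  -- the terms
  have ht1 := fun i : St => term_of_cubes
    (imS κ1 (fun a => a = Sum.inr i ∨ (cov (cof i) = some (τ i) ∧ a = Sum.inl (o (cof i)))))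
    (imS κ2 (fun b => b = Sum.inl (o (cof i)) ∨ b = Sum.inl (τ i)))
    {z | ∃ c, c = cof i ∧ z ∈ ζ c}
    (isCube_imS_or κ1 _ _ _ (hc i)) (isCube_imS_pair κ2 _ _ (hb i)) (hz1 i)
  have ht2 := fun i : St => term_of_cubes
    (imS κ1 (fun a => a = Sum.inl (o (cof i)) ∨ a = Sum.inl (τ i)))
    (imS κ2 (fun b => b = Sum.inr i ∨ (cov (cof i) = some (τ i) ∧ b = Sum.inl (τ i))))
    {z | ∃ c, c = cof i ∧ z ∈ ζ c}
    (isCube_imS_pair κ1 _ _ (ha i)) (isCube_imS_or κ2 _ _ _ (hd' i)) (hz1 i)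
  have ht3 := fun v : {v : V // v ∈ S} => term_of_cubes
    (imS κ1 (fun a => a = Sum.inl v.1)) (imS κ2 (fun b => b = Sum.inl v.1))
    {z | ∃ c, cov c = some v.1 ∧ z ∈ ζ c}
    (isCube_imS_single κ1 _) (isCube_imS_single κ2 _) (hSc v.1 v.2)
  choose c1 hc1 using ht1
  choose c2 hc2 using ht2
  choose c3 hc3 using ht3
  refine ⟨(Finset.univ.toList.map c1) ++ (Finset.univ.toList.map c2) ++
    (Finset.univ.toList.map c3), ?_, ?_⟩
  · simp only [List.length_append, List.length_map, Finset.length_toList, Finset.card_univ,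
      Fintype.card_coe]
    omega
  · intro w
    apply b2z_inj
    rw [b2z_decide, xorEval_z]
    simp only [List.map_append, List.map_map, List.sum_append, Function.comp_def]
    rw [Finset.sum_map_toList, Finset.sum_map_toList, Finset.sum_map_toList]
    simp only [hc1, hc2, hc3]
    have eT : (fun a b c => T cof o τ act a b c) =
      (∑ i : St, fun (a b : V ⊕ St) (c : C) =>
        if (a = Sum.inr i ∨ (cov (cof i) = some (τ i) ∧ a = Sum.inl (o (cof i)))) ∧
          (b = Sum.inl (o (cof i)) ∨ b = Sum.inl (τ i)) ∧ c = cof i then (1 : ZMod 2) else 0) +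
      (∑ i : St, fun (a b : V ⊕ St) (c : C) => if (a = Sum.inl (o (cof i)) ∨ a = Sum.inl (τ i)) ∧
          (b = Sum.inr i ∨ (cov (cof i) = some (τ i) ∧ b = Sum.inl (τ i))) ∧ c = cof i
          then (1 : ZMod 2) else 0) +
      (∑ v : {v : V // v ∈ S}, fun (a b : V ⊕ St) (c : C) =>
        if a = Sum.inl v.1 ∧ b = Sum.inl v.1 ∧ cov c = some v.1 then (1 : ZMod 2) else 0) := by
      funext a b c
      rw [T_id cof o τ act hτo hinj cov hcov0 hcov S hS a b c]
      simp only [Pi.add_apply, Finset.sum_apply]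
      congr 1
      rw [← Finset.sum_coe_sort]
    have eB : blockF cof o τ act κ1 κ2 ζ (xb w) (yb w) (zb w) =
        L (fun a b c => if κ1 a = xb w ∧ κ2 b = yb w ∧ zb w ∈ ζ c then (1 : ZMod 2) else 0)
          (fun a b c => T cof o τ act a b c) := by
      rw [LL_apply]
      unfold blockF
      refine Finset.sum_congr rfl (fun a _ => Finset.sum_congr rfl (fun b _ =>
        Finset.sum_congr rfl (fun c _ => ?_)))
      by_cases hh : κ1 a = xb w ∧ κ2 b = yb w ∧ zb w ∈ ζ c
      · rw [if_pos hh, if_pos hh, one_mul]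
      · rw [if_neg hh, if_neg hh, zero_mul]
    rw [eB, eT, map_add, map_add, map_sum, map_sum, map_sum]
    congr 1
    · congr 1
      · refine Finset.sum_congr rfl (fun i _ => ?_)
        convert L_ind κ1 κ2 h1 h2 ζ hd
          (fun a => a = Sum.inr i ∨ (cov (cof i) = some (τ i) ∧ a = Sum.inl (o (cof i))))
          (fun b => b = Sum.inl (o (cof i)) ∨ b = Sum.inl (τ i)) (fun c => c = cof i)
          (xb w) (yb w) (zb w) <;> exact Iff.rfl
      · refine Finset.sum_congr rfl (fun i _ => ?_)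
        convert L_ind κ1 κ2 h1 h2 ζ hd
          (fun a => a = Sum.inl (o (cof i)) ∨ a = Sum.inl (τ i))
          (fun b => b = Sum.inr i ∨ (cov (cof i) = some (τ i) ∧ b = Sum.inl (τ i)))
          (fun c => c = cof i) (xb w) (yb w) (zb w) <;> exact Iff.rfl
    · refine Finset.sum_congr rfl (fun v _ => ?_)
      convert L_ind κ1 κ2 h1 h2 ζ hd
          (fun a => a = Sum.inl v.1) (fun b => b = Sum.inl v.1)
          (fun c => cov c = some v.1) (xb w) (yb w) (zb w) <;> exact Iff.rfl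

end P65
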