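import Pool.Agent.Lib.P65.LBBits
import Pool.Agent.Lib.P65.UBBits
import Pool.Agent.Lib.P65.CrossLB
import Pool.Agent.Lib.P65.CrossUB
import Pool.Agent.Lib.P65.CodeInj
import Pool.Agent.Lib.P65.CodeCube

/-!
The number of ANDs of the crossbar function. Direct from `lb_bits` and `cross_lb` (for `→`), from
`cross_ub` and `ub_bits` (for `←`; `XorAnd` is monotone in `s`, so `|U| ≤ k` suffices).
The hypotheses `hτo`, `hinj` for `cc, oo, tt`: `tt i ≠ oo (cc i)` and
(`cc i = cc i'`, `tt i = tt i'` imply `i = i'`), by cases.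
-/

namespace P65

namespace InstAux

theorem tt_ne (n m : ℕ) (A : Fin (n+1) → Fin m → Bool) (i : SS n m A) :
    tt n m A i ≠ oo n m (cc n m A i) := by
  rcases i with p | q | p
  · intro h
    have h1 := congrArg (fun x : Fin (n+1) × Fin (2*m+3) => x.2) (Sum.inl.inj h)
    exact (Fin.castSucc_lt_succ (i := p.2)).ne h1
  · intro h
    have h1 := congrArg (fun x : Fin m × Fin (2*n+1) => x.2) (Sum.inr.inj h)
    exact (Fin.castSucc_lt_succ (i := q.2)).ne h1
  · intro h
    exact absurd h (by simp [tt, oo, cc])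

theorem cc_tt_inj (n m : ℕ) (A : Fin (n+1) → Fin m → Bool) (i i' : SS n m A)
    (h : cc n m A i = cc n m A i') (h' : tt n m A i = tt n m A i') : i = i' := by
  rcases i with p | q | p <;> rcases i' with p' | q' | p'
  · exact congrArg Sum.inl (Sum.inl.inj h)
  · exact absurd h (by simp [cc])
  · exact absurd h (by simp [cc])
  · exact absurd h (by simp [cc])
  · have h1 := Sum.inr.inj h
    have h2 : q.1 = q'.1 := congrArg (fun x : Fin m × Fin (2*n+1) => x.1) h1
    have h3 : q.2.succ = q'.2.succ := congrArg (fun x : Fin m × Fin (2*n+1) => x.2) h1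
    have h4 : q = q' := Prod.ext h2 (Fin.succ_injective _ h3)
    rw [h4]
  · exact absurd h' (by simp [tt])
  · exact absurd h (by simp [cc])
  · exact absurd h' (by simp [tt])
  · have h1 := Sum.inr.inj h
    have h2 : p.1.2 = p'.1.2 := congrArg (fun x : Fin m × Fin (2*n+1) => x.1) h1
    have h3 : pos n p.1.1 = pos n p'.1.1 := congrArg (fun x : Fin m × Fin (2*n+1) => x.2) h1
    have h4 : p.1.1 = p'.1.1 := by
      have := congrArg Fin.val h3
      simp only [pos] at this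
      exact Fin.ext (by omega)
    have h5 : p = p' := Subtype.ext (Prod.ext h4 h2)
    rw [h5]

theorem mono {ι : Type} [Fintype ι] {f : (ι → Bool) → Bool} {s t : ℕ} (h : XorAnd f s)
    (hst : s ≤ t) : XorAnd f t := by
  obtain ⟨ts, h1, h2⟩ := h
  exact ⟨ts, h1.trans hst, h2⟩

end InstAux

variable {ρ κ n m : ℕ}

theorem inst (A : Fin (n+1) → Fin m → Bool) (gr : ℕ → Fin ρ → Bool)
    (gc : ℕ → Fin κ → Bool) (hgr : IsGray ρ gr) (hgc : IsGray κ gc) (hρ : 2*n+1 ≤ 2^ρ)
    (hκ : 2*m+3 ≤ 2^κ) (hne : ∀ j, ∃ u, A u j = true) (γ : Fin m → Bool) (k : ℕ) :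
    XorAnd (FF n m A gr gc γ)
      (2 * Fintype.card (SS n m A) + ((n+1)*(m+1) + m*n) + k) ↔
    ∃ U : Finset (Fin (n+1)), U.card ≤ k ∧ ∀ j, γ j = true → ∃ u ∈ U, A u j = true := by
  constructor
  · intro h
    obtain ⟨S, h1, h2⟩ := lb_bits (cc n m A) (oo n m) (tt n m A) (ac n m γ)
      (InstAux.tt_ne n m A) (InstAux.cc_tt_inj n m A) (k1 n m A gr gc) (k2 n m A gr gc)
      (k1_inj A hgr hgc hρ hκ) (k2_inj A hgr hgc hρ hκ) (zt n m gr gc) zt_nonempty
      (zt_disj hgr hgc hρ hκ) _ h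
    obtain ⟨U, h3, h4⟩ := cross_lb n m A γ hne S h2
    exact ⟨U, by linarith, h3⟩
  · rintro ⟨U, h1, h2⟩
    obtain ⟨cov, S, c1, c2, c3, c4, c5⟩ := cross_ub n m A γ U h2
    have h := ub_bits (cc n m A) (oo n m) (tt n m A) (ac n m γ)
      (InstAux.tt_ne n m A) (InstAux.cc_tt_inj n m A) (k1 n m A gr gc) (k2 n m A gr gc)
      (k1_inj A hgr hgc hρ hκ) (k2_inj A hgr hgc hρ hκ) (zt n m gr gc)
      (zt_disj hgr hgc hρ hκ) cov c1
      (fun c v hv => c2 c v hv) S c3 (cube_zt hgc hκ)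
      (fun v hv => cube_shape hgr hgc hρ hκ _ (c4 v hv))
      (cube_a A hgr hgc hρ hκ) (cube_b A hgr hgc hρ hκ) (cube_c A) (cube_d A)
    exact InstAux.mono h (by linarith)

end P65
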