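import Pool.Agent.Lib.P65.LBTensor
import Pool.Agent.Lib.P65.XorZ

/-!
Lower bound for the number of ANDs. Let `ts` be the terms. By `eval_blocks` each term is a product
`p (xb w) * q (yb w) * r (zb w)`. Choose `z c ∈ ζ c`. For `a b : V ⊕ St`, `c : C` let
`w := Sum.elim (κ1 a) (Sum.elim (κ2 b) (z c))`. By the injectivity of `κ1, κ2` and the
disjointness of the `ζ c`, `blockF ... (κ1 a) (κ2 b) (z c) = T a b c` (only one summand is not
zero). So `T a b c = ∑ t, p_t (κ1 a) * q_t (κ2 b) * r_t (z c)` with `ts.length ≤ s` terms; apply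
`lb_tensor` with `R = ts.length` (`xorEval_z`, `b2z_decide`).
-/

namespace P65

namespace LBBitsAux

theorem blockF_code {V C St B : Type} [Fintype V] [Fintype C] [Fintype St]
    [DecidableEq V] [DecidableEq C] (cof : St → C) (o : C → V) (τ : St → V) (act : C → Bool)
    (κ1 κ2 : V ⊕ St → B → Bool) (h1 : Function.Injective κ1) (h2 : Function.Injective κ2)
    (ζ : C → Set (B → Bool)) (hd : ∀ c c' z, z ∈ ζ c → z ∈ ζ c' → c = c')
    (a b : V ⊕ St) (c : C) (z : B → Bool) (hz : z ∈ ζ c) :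
    blockF cof o τ act κ1 κ2 ζ (κ1 a) (κ2 b) z = T cof o τ act a b c := by
  unfold blockF
  rw [Finset.sum_eq_single a, Finset.sum_eq_single b, Finset.sum_eq_single c]
  · rw [if_pos ⟨rfl, rfl, hz⟩]
  · intro c' _ hc'
    rw [if_neg]
    rintro ⟨_, _, h⟩
    exact hc' (hd _ _ _ h hz)
  · intro h
    exact absurd (Finset.mem_univ _) h
  · intro b' _ hb'
    refine Finset.sum_eq_zero fun c' _ => ?_
    rw [if_neg]
    rintro ⟨_, h, _⟩
    exact hb' (h2 h)
  · intro h
    exact absurd (Finset.mem_univ _) h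
  · intro a' _ ha'
    refine Finset.sum_eq_zero fun b' _ => Finset.sum_eq_zero fun c' _ => ?_
    rw [if_neg]
    rintro ⟨h, _, _⟩
    exact ha' (h1 h)
  · intro h
    exact absurd (Finset.mem_univ _) h

end LBBitsAux

theorem lb_bits {V C St B : Type} [Fintype V] [Fintype C] [Fintype St] [Fintype B]
    [DecidableEq V] [DecidableEq C] (cof : St → C) (o : C → V) (τ : St → V) (act : C → Bool)
    (hτo : ∀ i, τ i ≠ o (cof i)) (hinj : ∀ i j, cof i = cof j → τ i = τ j → i = j)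
    (κ1 κ2 : V ⊕ St → B → Bool) (h1 : Function.Injective κ1) (h2 : Function.Injective κ2)
    (ζ : C → Set (B → Bool)) (hne : ∀ c, (ζ c).Nonempty)
    (hd : ∀ c c' z, z ∈ ζ c → z ∈ ζ c' → c = c') (s : ℕ)
    (h : XorAnd (fun w : B ⊕ B ⊕ B → Bool =>
      decide (blockF cof o τ act κ1 κ2 ζ (xb w) (yb w) (zb w) = 1)) s) :
    ∃ S : Finset V, S.card + 2 * Fintype.card St ≤ s ∧
      ∀ c, act c = true → (o c ∈ S ∨ ∃ i, cof i = c ∧ τ i ∈ S) := by
  obtain ⟨ts, hlen, hts⟩ := h
  choose z hz using hne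
  choose p q r hpqr using fun t : Fin ts.length => eval_blocks (ts[t.1])
  have hT : ∀ a b c, T cof o τ act a b c =
      ∑ t : Fin ts.length, p t (κ1 a) * q t (κ2 b) * r t (z c) := by
    intro a b c
    have e1 := congrArg b2z (hts (Sum.elim (κ1 a) (Sum.elim (κ2 b) (z c))))
    simp only [b2z_decide] at e1
    rw [xorEval_z] at e1
    have e2 : blockF cof o τ act κ1 κ2 ζ (xb (Sum.elim (κ1 a) (Sum.elim (κ2 b) (z c))))
        (yb (Sum.elim (κ1 a) (Sum.elim (κ2 b) (z c))))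
        (zb (Sum.elim (κ1 a) (Sum.elim (κ2 b) (z c)))) = T cof o τ act a b c :=
      LBBitsAux.blockF_code cof o τ act κ1 κ2 h1 h2 ζ hd a b c (z c) (hz c)
    rw [e2, ← Fin.sum_univ_fun_getElem] at e1
    rw [e1]
    refine Finset.sum_congr rfl fun t _ => ?_
    rw [hpqr t]
    rfl
  obtain ⟨S, hS, hcov⟩ := lb_tensor cof o τ act hτo hinj (fun t a => p t (κ1 a))
    (fun t b => q t (κ2 b)) (fun t c => r t (z c)) hT
  exact ⟨S, hS.trans hlen, hcov⟩

end P65
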