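import Pool.Agent.Lib.P65.Defs

/-!
Pivot lemma. Consider the matrix `M v t = r t v` (rows `v : V`, columns `t : Fin R`) and choose a
set `S` of rows that is a basis of the row space (Mathlib: `exists_linearIndependent'` for the
family `v ↦ (fun t => r t v)`); `|S| ≤ R`. Every row `v ∉ S` is a combination
`∑ s ∈ S, a v s • M s`. Given `g`, put `ξ v = g v` for `v ∉ S` and
`ξ s = -∑ v ∉ S, g v * a v s` for `s ∈ S`; then `∑ v, ξ v * M v t = 0` for all `t`.
-/

namespace P65

theorem pivot {V K : Type} [Fintype V] [DecidableEq V] [Field K] {R : ℕ} (r : Fin R → V → K) :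
    ∃ S : Finset V, S.card ≤ R ∧ ∀ g : V → K, ∃ ξ : V → K, (∀ v, v ∉ S → ξ v = g v) ∧
      ∀ t, ∑ v, ξ v * r t v = 0 := by
  classical
  obtain ⟨κ, a, ha, hspan, hli⟩ :=
    exists_linearIndependent' K (fun v : V => fun t : Fin R => r t v)
  have : Finite κ := Finite.of_injective a ha
  have : Fintype κ := Fintype.ofFinite κ
  refine ⟨Finset.univ.image a, ?_, ?_⟩
  · rw [Finset.card_image_of_injective _ ha, Finset.card_univ]
    have h1 := hli.fintype_card_le_finrank
    rwa [Module.finrank_fin_fun] at h1
  · intro g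
    have hc : ∀ v : V, ∃ c : κ → K, ∀ t : Fin R, ∑ k, c k * r t (a k) = r t v := by
      intro v
      have h1 : (fun t : Fin R => r t v) ∈
          Submodule.span K (Set.range ((fun v : V => fun t : Fin R => r t v) ∘ a)) := by
        rw [hspan]; exact Submodule.subset_span ⟨v, rfl⟩
      obtain ⟨c, hc⟩ := (Submodule.mem_span_range_iff_exists_fun K).1 h1
      refine ⟨c, fun t => ?_⟩
      have h2 := congrFun hc t
      rw [Finset.sum_apply] at h2
      simpa using h2
    choose c hc using hc
    let ξ : V → K := fun v => if h : ∃ k, a k = v then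
      -∑ v' ∈ Finset.univ.filter (fun v' => ¬ ∃ k, a k = v'), g v' * c v' h.choose else g v
    have hξ1 : ∀ k, ξ (a k) =
        -∑ v' ∈ Finset.univ.filter (fun v' => ¬ ∃ k, a k = v'), g v' * c v' k := by
      intro k
      have hk : ∃ k', a k' = a k := ⟨k, rfl⟩
      have h1 : hk.choose = k := ha hk.choose_spec
      change (if h : ∃ k', a k' = a k then
        -∑ v' ∈ Finset.univ.filter (fun v' => ¬ ∃ k, a k = v'), g v' * c v' h.choose
        else g (a k)) = _
      rw [dif_pos hk, h1]
    have hξ2 : ∀ v, (¬ ∃ k, a k = v) → ξ v = g v := fun v hv => dif_neg hv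
    refine ⟨ξ, ?_, ?_⟩
    · intro v hv
      apply hξ2
      rintro ⟨k, hk⟩
      exact hv (Finset.mem_image.2 ⟨k, Finset.mem_univ _, hk⟩)
    · intro t
      rw [← Finset.sum_filter_add_sum_filter_not Finset.univ (fun v => ∃ k, a k = v)
        (fun v => ξ v * r t v)]
      have h1 : ∑ v ∈ Finset.univ.filter (fun v => ∃ k, a k = v), ξ v * r t v
          = ∑ k, ξ (a k) * r t (a k) := by
        have h2 : Finset.univ.filter (fun v => ∃ k, a k = v) = Finset.univ.image a := by
          ext v; simp
        rw [h2, Finset.sum_image (fun x _ y _ hxy => ha hxy)]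
      have h3 : ∑ v ∈ Finset.univ.filter (fun v => ¬ ∃ k, a k = v), ξ v * r t v
          = ∑ v ∈ Finset.univ.filter (fun v => ¬ ∃ k, a k = v), g v * r t v := by
        refine Finset.sum_congr rfl (fun v hv => ?_)
        rw [hξ2 v (Finset.mem_filter.1 hv).2]
      have h4 : ∑ k, ξ (a k) * r t (a k)
          = -∑ v ∈ Finset.univ.filter (fun v => ¬ ∃ k, a k = v), g v * r t v := by
        have h5 : ∀ v, g v * r t v = ∑ k, g v * c v k * r t (a k) := by
          intro v
          rw [← hc v t, Finset.mul_sum]
          exact Finset.sum_congr rfl (fun k _ => by ring)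
        rw [Finset.sum_congr rfl (fun v _ => h5 v), Finset.sum_comm, ← Finset.sum_neg_distrib]
        refine Finset.sum_congr rfl (fun k _ => ?_)
        rw [hξ1 k, neg_mul, Finset.sum_mul]
      rw [h1, h3, h4]
      ring

end P65
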