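import Pool.Agent.Lib.P65.Subst
import Pool.Agent.Lib.P65.Pivot

/-!
Lower bound for the tensor rank of `T`.

Proof. Apply `subst_rows` (with `K = ZMod 2`, `P = St`, `Y = (V ⊕ St) × C`,
`X t (b, c) = s t b * w t c`): the rows `T (inr p)` are independent since
`T (inr p) (inl (τ q)) (cof q) = 1` if `p = q` and `= 0` if `p ≠ q` (it is `1` iff
`cof p = cof q` and (`τ q = o (cof q)` or `τ q = τ p`)). We get
`T1 v b c := T (inl v) b c + ∑ p, l p v * T (inr p) b c = ∑ t, r' t v * s (e t) b * w (e t) c`
with `R' + |St| ≤ R` terms. Now apply `subst_rows` again to the columns: the array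
`b ↦ (v, c) ↦ T1 v b c`, with `Y = V × C`; its private columns are
`T1 v (inr q) c = T (inl v) (inr q) c` (as `T (inr p) (inr q) = 0`), independent for the same
reason (evaluate at `v = τ q, c = cof q`). We get
`T2 v b c := T1 v (inl b) c + ∑ q, l' q b * T (inl v) (inr q) c = ∑ t, ...` (`v b : V`)
with `R'' + 2 |St| ≤ R` terms `r'' t v * s'' t b * w'' t c`.
Apply `pivot` to the family `r''` and get `S`, `|S| ≤ R''`. Suppose that `act c` and that neither
`o c` nor any `τ i` (`cof i = c`) is in `S`. Let `Vc := {o c} ∪ {τ i | cof i = c}`,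
`g := indicator of Vc`, `ξ` from `pivot`, `η := indicator of Vc`. Then
`0 = ∑ v b, ξ v * η b * T2 v b c`. On the other hand: the part `T (inl v) (inl b) c` gives
`ξ (o c) * η (o c) = 1`; the part `∑ p, l p v * T (inr p) (inl b) c` gives
`∑ p, [cof p = c] (∑ v, ξ v * l p v) * (η (o c) + η (τ p)) = 0` (note `o c ≠ τ p`), and the part
`∑ q, l' q b * T (inl v) (inr q) c` gives `∑ q, [cof q = c] (∑ b, η b * l' q b) * (ξ (o c) + ξ (τ q)) = 0`.
So `1 = 0`, a contradiction.
-/

namespace P65

namespace LBTensorAux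

theorem priv {V C St : Type} [Fintype St] [DecidableEq V] [DecidableEq C]
    (cof : St → C) (o : C → V) (τ : St → V)
    (hτo : ∀ i, τ i ≠ o (cof i)) (hinj : ∀ i j, cof i = cof j → τ i = τ j → i = j)
    (lam : St → ZMod 2) (q : St)
    (h : ∑ p, lam p * (if cof p = cof q ∧ (τ q = o (cof q) ∨ τ q = τ p) then (1 : ZMod 2) else 0)
      = 0) : lam q = 0 := by
  classical
  have h1 : ∀ p, lam p * (if cof p = cof q ∧ (τ q = o (cof q) ∨ τ q = τ p) then (1 : ZMod 2) else 0)
      = if p = q then lam p else 0 := by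
    intro p
    by_cases hpq : p = q
    · subst hpq
      simp
    · have h2 : ¬ (cof p = cof q ∧ (τ q = o (cof q) ∨ τ q = τ p)) := by
        rintro ⟨h3, h4 | h4⟩
        · exact hτo q h4
        · exact hpq (hinj p q h3 h4.symm)
      rw [if_neg h2, if_neg hpq, mul_zero]
  rw [Finset.sum_congr rfl (fun p _ => h1 p)] at h
  simpa using h

theorem two {V C St : Type} [Fintype V] [DecidableEq V] [DecidableEq C]
    (cof : St → C) (o : C → V) (τ : St → V) (hτo : ∀ i, τ i ≠ o (cof i)) (c : C)
    (F : V → ZMod 2) (h0 : F (o c) = 1) (h1 : ∀ i, cof i = c → F (τ i) = 1) (q : St) :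
    ∑ v, F v * (if cof q = c ∧ (v = o c ∨ v = τ q) then (1 : ZMod 2) else 0) = 0 := by
  by_cases hq : cof q = c
  · have hne : o c ≠ τ q := by
      intro e
      apply hτo q
      rw [hq, e]
    have h2 : ∀ v, F v * (if cof q = c ∧ (v = o c ∨ v = τ q) then (1 : ZMod 2) else 0)
        = (if v = o c then F v else 0) + (if v = τ q then F v else 0) := by
      intro v
      by_cases h3 : v = o c
      · have h4 : v ≠ τ q := fun e => hne (h3.symm.trans e)
        rw [if_pos ⟨hq, Or.inl h3⟩, if_pos h3, if_neg h4]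
        ring
      · by_cases h4 : v = τ q
        · rw [if_pos ⟨hq, Or.inr h4⟩, if_neg h3, if_pos h4]
          ring
        · rw [if_neg (fun h5 => h5.2.elim h3 h4), if_neg h3, if_neg h4]
          ring
    rw [Finset.sum_congr rfl (fun v _ => h2 v), Finset.sum_add_distrib,
      Finset.sum_ite_eq' Finset.univ (o c) F, Finset.sum_ite_eq' Finset.univ (τ q) F,
      if_pos (Finset.mem_univ _), if_pos (Finset.mem_univ _), h0, h1 q hq]
    decide
  · apply Finset.sum_eq_zero
    intro v _
    rw [if_neg (fun h => hq h.1), mul_zero]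

end LBTensorAux

open LBTensorAux

theorem lb_tensor {V C St : Type} [Fintype V] [Fintype C] [Fintype St] [DecidableEq V]
    [DecidableEq C] (cof : St → C) (o : C → V) (τ : St → V) (act : C → Bool)
    (hτo : ∀ i, τ i ≠ o (cof i)) (hinj : ∀ i j, cof i = cof j → τ i = τ j → i = j)
    {R : ℕ} (r s : Fin R → (V ⊕ St) → ZMod 2) (w : Fin R → C → ZMod 2)
    (hT : ∀ a b c, T cof o τ act a b c = ∑ t, r t a * s t b * w t c) :
    ∃ S : Finset V, S.card + 2 * Fintype.card St ≤ R ∧
      ∀ c, act c = true → (o c ∈ S ∨ ∃ i, cof i = c ∧ τ i ∈ S) := by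
  classical
  obtain ⟨R', e, l, r', hR1, h1⟩ := subst_rows (K := ZMod 2) (Y := (V ⊕ St) × C) r
    (fun t y => s t y.1 * w t y.2) (fun a y => T cof o τ act a y.1 y.2)
    (fun a y => by
      rw [hT]
      exact Finset.sum_congr rfl (fun t _ => by ring))
    (fun lam hl => by
      funext q
      have h := hl (Sum.inl (τ q), cof q)
      exact priv cof o τ hτo hinj lam q h)
  -- columns
  obtain ⟨R'', e', l', s', hR2, h2⟩ := subst_rows (K := ZMod 2) (Y := V × C)
    (fun t b => s (e t) b) (fun t y => r' t y.1 * w (e t) y.2)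
    (fun b y => T cof o τ act (Sum.inl y.1) b y.2
      + ∑ p, l p y.1 * T cof o τ act (Sum.inr p) b y.2)
    (fun b y => by
      have h := h1 y.1 (b, y.2)
      simp only at h
      rw [h]
      exact Finset.sum_congr rfl (fun t _ => by ring))
    (fun lam hl => by
      funext q
      have h := hl (τ q, cof q)
      simp only [T, mul_zero, Finset.sum_const_zero, add_zero] at h
      exact priv cof o τ hτo hinj lam q h)
  obtain ⟨S, hS, hp⟩ := pivot (fun t v => r' (e' t) v)
  refine ⟨S, by omega, fun c hc => ?_⟩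
  by_contra hcon
  push Not at hcon
  obtain ⟨hoS, hτS⟩ := hcon
  obtain ⟨ξ, hξ, hξ0⟩ := hp (fun v => if v = o c ∨ ∃ i, cof i = c ∧ τ i = v then 1 else 0)
  have hξo : ξ (o c) = 1 := by
    rw [hξ _ hoS, if_pos (Or.inl rfl)]
  have hξτ : ∀ i, cof i = c → ξ (τ i) = 1 := by
    intro i hi
    rw [hξ _ (hτS i hi), if_pos (Or.inr ⟨i, hi, rfl⟩)]
  set η : V → ZMod 2 := fun v => if v = o c ∨ ∃ i, cof i = c ∧ τ i = v then 1 else 0 with hη
  have hηo : η (o c) = 1 := by
    rw [hη]
    simp
  have hητ : ∀ i, cof i = c → η (τ i) = 1 := by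
    intro i hi
    rw [hη]
    exact if_pos (Or.inr ⟨i, hi, rfl⟩)
  have hT2 : ∀ v b, (∑ t, s' t b * (r' (e' t) v * w (e (e' t)) c))
      = ((if v = o c ∧ b = o c then (1 : ZMod 2) else 0)
        + ∑ p, l p v * (if cof p = c ∧ (b = o c ∨ b = τ p) then (1 : ZMod 2) else 0))
        + ∑ q, l' q b * (if cof q = c ∧ (v = o c ∨ v = τ q) then (1 : ZMod 2) else 0) := by
    intro v b
    have h := h2 b (v, c)
    simp only [T, mul_zero, Finset.sum_const_zero, add_zero, hc, and_true] at h
    exact h.symm
  have hzero : ∑ v, ∑ b, ξ v * η b * (∑ t, s' t b * (r' (e' t) v * w (e (e' t)) c)) = 0 := by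
    rw [Finset.sum_comm]
    apply Finset.sum_eq_zero
    intro b _
    have h3 : ∀ v, ξ v * η b * (∑ t, s' t b * (r' (e' t) v * w (e (e' t)) c))
        = ∑ t, (η b * s' t b * w (e (e' t)) c) * (ξ v * r' (e' t) v) := by
      intro v
      rw [Finset.mul_sum]
      exact Finset.sum_congr rfl (fun t _ => by ring)
    rw [Finset.sum_congr rfl (fun v _ => h3 v), Finset.sum_comm]
    apply Finset.sum_eq_zero
    intro t _
    rw [← Finset.mul_sum, hξ0 t, mul_zero]
  have hone : ∑ v, ∑ b, ξ v * η b * (∑ t, s' t b * (r' (e' t) v * w (e (e' t)) c)) = 1 := by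
    have h3 : ∀ v b, ξ v * η b * (∑ t, s' t b * (r' (e' t) v * w (e (e' t)) c))
        = (if v = o c ∧ b = o c then ξ v * η b else 0)
        + (∑ p, (ξ v * l p v) * (η b * (if cof p = c ∧ (b = o c ∨ b = τ p)
            then (1 : ZMod 2) else 0)))
        + ∑ q, (η b * l' q b) * (ξ v * (if cof q = c ∧ (v = o c ∨ v = τ q)
            then (1 : ZMod 2) else 0)) := by
      intro v b
      rw [hT2 v b, mul_add, mul_add, Finset.mul_sum, Finset.mul_sum]
      congr 1
      · congr 1
        · by_cases h : v = o c ∧ b = o c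
          · rw [if_pos h, if_pos h, mul_one]
          · rw [if_neg h, if_neg h, mul_zero]
        · exact Finset.sum_congr rfl (fun t _ => by ring)
      · exact Finset.sum_congr rfl (fun t _ => by ring)
    have hA : ∑ v, ∑ b, (if v = o c ∧ b = o c then ξ v * η b else 0) = 1 := by
      rw [Finset.sum_eq_single (o c), Finset.sum_eq_single (o c)]
      · rw [if_pos ⟨rfl, rfl⟩, hξo, hηo, mul_one]
      · intro b _ hb
        rw [if_neg (fun h => hb h.2)]
      · intro h
        exact absurd (Finset.mem_univ _) h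
      · intro v _ hv
        apply Finset.sum_eq_zero
        intro b _
        rw [if_neg (fun h => hv h.1)]
      · intro h
        exact absurd (Finset.mem_univ _) h
    have hB : ∑ v, ∑ b, (∑ p, (ξ v * l p v) * (η b * (if cof p = c ∧ (b = o c ∨ b = τ p)
            then (1 : ZMod 2) else 0))) = 0 := by
      apply Finset.sum_eq_zero
      intro v _
      rw [Finset.sum_comm]
      apply Finset.sum_eq_zero
      intro p _
      rw [← Finset.mul_sum, two cof o τ hτo c η hηo hητ p, mul_zero]
    have hC : ∑ v, ∑ b, (∑ q, (η b * l' q b) * (ξ v * (if cof q = c ∧ (v = o c ∨ v = τ q)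
            then (1 : ZMod 2) else 0))) = 0 := by
      rw [Finset.sum_comm]
      apply Finset.sum_eq_zero
      intro b _
      rw [Finset.sum_comm]
      apply Finset.sum_eq_zero
      intro q _
      rw [← Finset.mul_sum, two cof o τ hτo c ξ hξo hξτ q, mul_zero]
    calc ∑ v, ∑ b, ξ v * η b * (∑ t, s' t b * (r' (e' t) v * w (e (e' t)) c))
        = ∑ v, ∑ b, ((if v = o c ∧ b = o c then ξ v * η b else 0)
        + (∑ p, (ξ v * l p v) * (η b * (if cof p = c ∧ (b = o c ∨ b = τ p)
            then (1 : ZMod 2) else 0)))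
        + ∑ q, (η b * l' q b) * (ξ v * (if cof q = c ∧ (v = o c ∨ v = τ q)
            then (1 : ZMod 2) else 0))) :=
          Finset.sum_congr rfl (fun v _ => Finset.sum_congr rfl (fun b _ => h3 v b))
      _ = 1 := by
          simp only [Finset.sum_add_distrib]
          rw [hA, hB, hC]
          ring
  rw [hzero] at hone
  exact absurd hone (by decide)

end P65
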