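import Pool.Agent.Lib.P65.CircDefs

/-!
A projection reduction is a P/poly reduction by circuits of a very simple kind: input gates,
constants and negations, followed by one oracle gate.
-/

namespace P65

/-- Gates of a projection: inputs, constants, negations. -/
def Gate.IsProj : Gate → Prop
  | .inp _ => True
  | .cst _ => True
  | .neg _ => True
  | _ => False

/-- The value of the first of the two gates of a symbol. -/
def PS.pre (x : List Bool) : PS → Bool
  | .cst b => b
  | .lit i => x.getD i false
  | .nlit i => x.getD i false

/-- The two gates of the symbol number `k`. -/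
def PS.gates (k : ℕ) : PS → List Gate
  | .cst b => [.cst b, .cst b]
  | .lit i => [.inp i, .inp i]
  | .nlit i => [.inp i, .neg (2 * k)]

/-- The gates of all symbols. -/
def buildG : ℕ → List PS → List Gate
  | _, [] => []
  | k, s :: W => s.gates k ++ buildG (k + 1) W

theorem buildG_isProj (W : List PS) : ∀ k, ∀ g ∈ buildG k W, g.IsProj := by
  induction W with
  | nil => intro k g hg; simp [buildG] at hg
  | cons s W ih =>
    intro k g hg
    rw [buildG, List.mem_append] at hg
    rcases hg with hg | hg
    · cases s with
      | cst b => simp [PS.gates] at hg; subst hg; trivial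
      | lit i => simp [PS.gates] at hg; subst hg; trivial
      | nlit i =>
        simp [PS.gates] at hg
        rcases hg with hg | hg <;> (subst hg; trivial)
    · exact ih (k+1) g hg

theorem buildG_csize (W : List PS) : ∀ k, csize (buildG k W) = 2 * W.length := by
  induction W with
  | nil => intro k; simp [buildG, csize]
  | cons s W ih =>
    intro k
    have h := ih (k+1)
    unfold csize at h ⊢
    rw [buildG, List.map_append, List.sum_append, h]
    cases s <;> simp [PS.gates, Gate.size] <;> ring

theorem foldl_buildG (B : Set (List Bool)) (x : List Bool) (W : List PS) :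
    ∀ k (vals : List Bool), vals.length = 2 * k →
      (buildG k W).foldl (fun vals g => vals ++ [g.eval B x vals]) vals =
        vals ++ W.flatMap (fun s => [s.pre x, s.eval x]) := by
  induction W with
  | nil => intro k vals _; simp [buildG]
  | cons s W ih =>
    intro k vals hv
    rw [buildG, List.foldl_append]
    have h1 : (s.gates k).foldl (fun vals g => vals ++ [g.eval B x vals]) vals =
        vals ++ [s.pre x, s.eval x] := by
      cases s with
      | cst b => simp [PS.gates, Gate.eval, PS.pre, PS.eval]
      | lit i => simp [PS.gates, Gate.eval, PS.pre, PS.eval]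
      | nlit i =>
        simp [PS.gates, Gate.eval, PS.pre, PS.eval, ← hv]
    rw [h1, ih (k+1) _ (by simp [hv]; ring)]
    simp

theorem getD_flatMap (x : List Bool) (W : List PS) : ∀ k, k < W.length →
    (W.flatMap (fun s => [s.pre x, s.eval x])).getD (2 * k + 1) false =
      (W.map (PS.eval x)).getD k false := by
  induction W with
  | nil => intro k hk; simp at hk
  | cons s W ih =>
    intro k hk
    cases k with
    | zero => simp
    | succ k =>
      have := ih k (by simpa using hk)
      simp only [List.flatMap_cons, List.map_cons]
      have h2 : 2 * (k + 1) + 1 = (2 * k + 1) + 1 + 1 := by ring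
      rw [h2]
      simpa using this

theorem map_oracle (x : List Bool) (W : List PS) :
    ((List.range W.length).map (fun k => 2 * k + 1)).map
      (fun a => (W.flatMap (fun s => [s.pre x, s.eval x])).getD a false) =
      W.map (PS.eval x) := by
  apply List.ext_getElem
  · simp
  · intro i h1 h2
    have hi : i < W.length := by simpa using h2
    have := getD_flatMap x W i hi
    simp only [List.getElem_map, List.getElem_range]
    rw [this]
    simp [List.getD_eq_getElem?_getD, hi]

/-- From a family of projections to circuits with one oracle gate. -/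
theorem projCircuit (L B : Set (List Bool)) (h : PPolyProj L B) :
    ∃ d : ℕ, ∀ m, 1 ≤ m → ∃ (P : List Gate) (as : List ℕ), (∀ g ∈ P, g.IsProj) ∧
      csize (P ++ [Gate.orc as]) ≤ m ^ d + d ∧
      ∀ x : List Bool, x.length = m → (outC B x (P ++ [Gate.orc as]) = true ↔ x ∈ L) := by
  obtain ⟨d, hd⟩ := h
  refine ⟨4 * d + 4, fun m hm => ?_⟩
  obtain ⟨W, hW, hx⟩ := hd m hm
  refine ⟨buildG 0 W, (List.range W.length).map (fun k => 2 * k + 1), buildG_isProj W 0, ?_, ?_⟩
  · have h1 : csize (buildG 0 W ++ [Gate.orc ((List.range W.length).map (fun k => 2 * k + 1))]) =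
        3 * W.length + 1 := by
      have := buildG_csize W 0
      unfold csize at this ⊢
      rw [List.map_append, List.sum_append, this]
      simp [Gate.size]; ring
    rw [h1]
    have h2 : 3 * W.length + 1 ≤ 3 * (m ^ d + d) + 1 := by omega
    refine h2.trans ?_
    rcases Nat.lt_or_ge m 2 with hm2 | hm2
    · have : m = 1 := by omega
      subst this
      simp; omega
    · have h3 : m ^ (4 * d + 4) = m ^ (3 * d) * m ^ d * m ^ 4 := by
        rw [← pow_add, ← pow_add]; congr 1; ring
      have h4 : 1 ≤ m ^ (3 * d) := Nat.one_le_pow _ _ (by omega)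
      have h5 : 2 ^ 4 ≤ m ^ 4 := Nat.pow_le_pow_left hm2 4
      have h6 : 3 * m ^ d ≤ m ^ (4 * d + 4) := by
        rw [h3]
        calc 3 * m ^ d ≤ 1 * m ^ d * 2 ^ 4 := by omega
          _ ≤ m ^ (3 * d) * m ^ d * m ^ 4 := by
            apply Nat.mul_le_mul
            · exact Nat.mul_le_mul_right _ h4
            · exact h5
      omega
  · intro x hxm
    rw [← hx x hxm]
    unfold outC runC
    rw [List.foldl_append, foldl_buildG B x W 0 [] (by simp)]
    simp only [List.foldl_cons, List.foldl_nil, List.nil_append, Gate.eval]
    rw [map_oracle]
    simp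

theorem ppolyTuring_of_proj (L B : Set (List Bool)) (h : PPolyProj L B) : PPolyTuring L B := by
  obtain ⟨d, hd⟩ := projCircuit L B h
  refine ⟨d, fun m hm => ?_⟩
  obtain ⟨P, as, _, h1, h2⟩ := hd m hm
  exact ⟨P ++ [Gate.orc as], h1, h2⟩

end P65
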