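import Pool.Agent.Lib.P65.Defs

/-!
Substitution lemma (private rows). Let `T = ∑ t, r t ⊗ X t` and let the rows `T (inr p)` be
linearly independent. Then for suitable `l p : V → K` the array `T (inl v) + ∑ p, l p v • T (inr p)`
is a combination of only `R - |P|` of the `X t`.

Proof. The vectors `ρ_p := (r t (inr p))_t ∈ K^R` (`p ∈ P`) are linearly independent (a relation
`∑ lam p * r t (inr p) = 0` for all `t` gives `∑ lam p * T (inr p) y = 0` for all `y`). So the
vectors `c_t := (r t (inr p))_p ∈ K^P` (`t : Fin R`) span `K^P` (if `φ` in the dual kills all of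
them then `φ = 0`). Take a subfamily of them that is a basis of `K^P` (Mathlib:
`exists_linearIndependent'` or `Submodule.exists_fun_fin_finrank_span_eq` ...): an injective
`a : P → Fin R` (or a set `J` of `|P|` indices). Let `g : K^P → K^V` be the linear map with
`g (c_t) = -(r t (inl v))_v` for the basis elements `t`. Put `L (w) = w|_V + g (w|_P)` for
`w : V ⊕ P → K`, so `L (r t) = 0` for the `|P|` indices `t` of the basis, and
`L` applied to `T · y` gives `T (inl v) y + ∑ p, g (e_p) v * T (inr p) y`. So `l p = g (e_p)`,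
`R' = R - |P|`, `e` enumerates the remaining indices and `r' t = L (r (e t))`.
-/

namespace P65

namespace SubstAux

/-- vectors that are killed by no functional span the space -/
theorem span_top {ι P K : Type} [Fintype P] [Field K] (c : ι → P → K)
    (h : ∀ lam : P → K, (∀ t, ∑ p, lam p * c t p = 0) → lam = 0) :
    Submodule.span K (Set.range c) = ⊤ := by
  classical
  by_contra hne
  obtain ⟨f, hf, hle⟩ := Submodule.exists_le_ker_of_lt_top _ (lt_top_iff_ne_top.mpr hne)
  apply hf
  have h0 := h (fun p => f fun j => if p = j then 1 else 0) (fun t => by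
    have h1 : c t ∈ LinearMap.ker f := hle (Submodule.subset_span ⟨t, rfl⟩)
    rw [LinearMap.mem_ker, LinearMap.pi_apply_eq_sum_univ f (c t)] at h1
    exact Eq.trans (Finset.sum_congr rfl (fun p _ => by rw [smul_eq_mul, mul_comm])) h1)
  apply LinearMap.ext
  intro x
  rw [LinearMap.pi_apply_eq_sum_univ f x]
  apply Finset.sum_eq_zero
  intro p _
  have h2 := congrFun h0 p
  simp only [Pi.zero_apply] at h2
  rw [h2, smul_zero]

end SubstAux

theorem subst_rows {V P Y K : Type} [Fintype V] [Fintype P] [Field K] {R : ℕ}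
    (r : Fin R → (V ⊕ P) → K) (X : Fin R → Y → K) (T : (V ⊕ P) → Y → K)
    (hT : ∀ a y, T a y = ∑ t, r t a * X t y)
    (hind : ∀ lam : P → K, (∀ y, ∑ p, lam p * T (Sum.inr p) y = 0) → lam = 0) :
    ∃ (R' : ℕ) (e : Fin R' → Fin R) (l : P → V → K) (r' : Fin R' → V → K),
      R' + Fintype.card P ≤ R ∧
      ∀ v y, T (Sum.inl v) y + ∑ p, l p v * T (Sum.inr p) y = ∑ t, r' t v * X (e t) y := by
  classical
  have hspan : Submodule.span K (Set.range (fun t : Fin R => fun p => r t (Sum.inr p))) = ⊤ := by
    apply SubstAux.span_top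
    intro lam hlam
    apply hind
    intro y
    have h1 : ∑ p, lam p * T (Sum.inr p) y =
        ∑ t, (∑ p, lam p * r t (Sum.inr p)) * X t y := by
      simp only [hT, Finset.mul_sum, Finset.sum_mul]
      rw [Finset.sum_comm]
      exact Finset.sum_congr rfl (fun t _ => Finset.sum_congr rfl (fun p _ => by ring))
    rw [h1]
    apply Finset.sum_eq_zero
    intro t _
    rw [hlam t, zero_mul]
  obtain ⟨κ, a, ha, hsp, hli⟩ := exists_linearIndependent' K
    (fun t : Fin R => fun p => r t (Sum.inr p))
  have : Fintype κ := Fintype.ofInjective a ha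
  have htop : ⊤ ≤ Submodule.span K (Set.range ((fun t : Fin R => fun p => r t (Sum.inr p)) ∘ a)) := by
    rw [hsp, hspan]
  let b : Module.Basis κ K (P → K) := Module.Basis.mk hli htop
  have hb : ∀ k, b k = fun p => r (a k) (Sum.inr p) := fun k => by
    rw [Module.Basis.mk_apply]
    rfl
  have hcard : Fintype.card κ = Fintype.card P := by
    rw [← Module.finrank_eq_card_basis b, Module.finrank_fintype_fun_eq_card]
  let g : (P → K) →ₗ[K] (V → K) := b.constr K (fun k v => -(r (a k) (Sum.inl v)))
  have hg : ∀ k v, g (fun p => r (a k) (Sum.inr p)) v = -(r (a k) (Sum.inl v)) := by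
    intro k v
    rw [← hb k, Module.Basis.constr_basis]
  obtain ⟨s, hs⟩ : ∃ s : Finset (Fin R), s = (Finset.univ.image a)ᶜ := ⟨_, rfl⟩
  have hscard : s.card + Fintype.card P = R := by
    have h1 : (Finset.univ.image a).card = Fintype.card P := by
      rw [Finset.card_image_of_injective _ ha, Finset.card_univ, hcard]
    have h2 := Finset.card_add_card_compl (Finset.univ.image a)
    rw [← hs, h1, Fintype.card_fin] at h2
    omega
  refine ⟨s.card, fun i => (s.equivFin.symm i : Fin R), fun p v => g (fun j => if p = j then 1 else 0) v,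
    fun i v => r (s.equivFin.symm i : Fin R) (Sum.inl v) +
      g (fun p => r (s.equivFin.symm i : Fin R) (Sum.inr p)) v, hscard.le, ?_⟩
  intro v y
  have hgv : ∀ x : P → K, ∑ p, g (fun j => if p = j then 1 else 0) v * x p = g x v := by
    intro x
    rw [LinearMap.pi_apply_eq_sum_univ g x, Finset.sum_apply]
    exact Finset.sum_congr rfl (fun p _ => by
      rw [Pi.smul_apply, smul_eq_mul, mul_comm])
  have hL : T (Sum.inl v) y + ∑ p, g (fun j => if p = j then 1 else 0) v * T (Sum.inr p) y =
      ∑ t, (r t (Sum.inl v) + g (fun p => r t (Sum.inr p)) v) * X t y := by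
    have h1 : ∑ p, g (fun j => if p = j then 1 else 0) v * T (Sum.inr p) y =
        ∑ t, g (fun p => r t (Sum.inr p)) v * X t y := by
      simp only [hT, Finset.mul_sum]
      rw [Finset.sum_comm]
      refine Finset.sum_congr rfl (fun t _ => ?_)
      rw [← hgv, Finset.sum_mul]
      exact Finset.sum_congr rfl (fun p _ => by ring)
    rw [h1, hT, ← Finset.sum_add_distrib]
    exact Finset.sum_congr rfl (fun t _ => by ring)
  rw [hL, ← Finset.sum_add_sum_compl (Finset.univ.image a), ← hs]
  have hzero : ∑ t ∈ Finset.univ.image a,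
      (r t (Sum.inl v) + g (fun p => r t (Sum.inr p)) v) * X t y = 0 := by
    apply Finset.sum_eq_zero
    intro t ht
    obtain ⟨k, _, rfl⟩ := Finset.mem_image.mp ht
    rw [hg]
    ring
  rw [hzero, zero_add]
  rw [← Finset.sum_coe_sort s]
  exact (Equiv.sum_comp s.equivFin.symm (fun t : s =>
    (r (t : Fin R) (Sum.inl v) + g (fun p => r (t : Fin R) (Sum.inr p)) v) * X (t : Fin R) y)).symm

end P65
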