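import Pool.Agent.Lib.P65.CircDefs

/-!
The values of the gates of a circuit: local equations and uniqueness. Induction on `C` from the
right (`List.reverseRecOn` / `List.foldl_append`).
-/

namespace P65

namespace TseAAux

theorem runC_snoc (B : Set (List Bool)) (x : List Bool) (C : List Gate) (a : Gate) :
    runC B x (C ++ [a]) = runC B x C ++ [a.eval B x (runC B x C)] := by
  simp [runC, List.foldl_append]

theorem len (B : Set (List Bool)) (x : List Bool) (C : List Gate) :
    (runC B x C).length = C.length := by
  induction C using List.reverseRecOn with
  | nil => simp [runC]
  | append_singleton C a ih => rw [runC_snoc]; simp [ih]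

theorem take (B : Set (List Bool)) (x : List Bool) (C : List Gate) (g : ℕ) :
    (runC B x C).take g = runC B x (C.take g) := by
  induction C using List.reverseRecOn with
  | nil => simp [runC]
  | append_singleton C a ih =>
    by_cases h : g ≤ C.length
    · rw [runC_snoc, List.take_append_of_le_length (by rw [len]; exact h), ih,
        List.take_append_of_le_length h]
    · push Not at h
      rw [List.take_of_length_le (by rw [len]; simp; omega),
        List.take_of_length_le (by simp; omega)]

theorem getD_take {α : Type} (l : List α) (g : ℕ) (d : α) :
    (l.take (g + 1)).getD g d = l.getD g d := by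
  simp [List.getD_eq_getElem?_getD, List.getElem?_take]

theorem getD_snoc {α : Type} (l : List α) (a d : α) (g : ℕ) (h : l.length = g) :
    (l ++ [a]).getD g d = a := by
  subst h
  simp [List.getD_eq_getElem?_getD]

theorem last {α : Type} (l : List α) (d : α) (h : l ≠ []) :
    l.getLastD d = l.getD (l.length - 1) d := by
  induction l using List.reverseRecOn with
  | nil => exact absurd rfl h
  | append_singleton l a _ =>
    rw [getD_snoc l a d _ (by simp)]
    simp

end TseAAux

theorem runC_length (B : Set (List Bool)) (x : List Bool) (C : List Gate) :
    (runC B x C).length = C.length :=
  TseAAux.len B x C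

/-- The value of the gate `g` is computed from the values of the earlier gates. -/
theorem runC_local (B : Set (List Bool)) (x : List Bool) (C : List Gate) (g : ℕ)
    (hg : g < C.length) :
    (runC B x C).getD g false = (C[g]'hg).eval B x ((runC B x C).take g) := by
  rw [← TseAAux.getD_take, TseAAux.take, TseAAux.take, List.take_succ_eq_append_getElem hg,
    TseAAux.runC_snoc, TseAAux.getD_snoc]
  rw [TseAAux.len, List.length_take]
  omega

/-- A family of values that satisfies the local equations is the family of the values. -/
theorem runC_unique (B : Set (List Bool)) (x : List Bool) (C : List Gate) (v : ℕ → Bool)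
    (hv : ∀ g (hg : g < C.length),
      v g = (C[g]'hg).eval B x (List.ofFn (fun i : Fin g => v i.1))) :
    ∀ g, g < C.length → v g = (runC B x C).getD g false := by
  intro g
  induction g using Nat.strong_induction_on with
  | _ g ih =>
    intro hg
    rw [hv g hg, runC_local B x C g hg]
    congr 1
    apply List.ext_getElem
    · rw [List.length_ofFn, List.length_take, TseAAux.len]
      omega
    · intro i h1 h2
      have hi : i < g := by simpa using h1
      rw [List.getElem_ofFn, List.getElem_take]
      have h3 : i < (runC B x C).length := by
        rw [TseAAux.len]
        omega
      rw [ih i hi (by omega), List.getD_eq_getElem _ _ h3]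

theorem outC_eq (B : Set (List Bool)) (x : List Bool) (C : List Gate) :
    outC B x C = if C = [] then false else (runC B x C).getD (C.length - 1) false := by
  unfold outC
  split_ifs with h
  · subst h
    simp [runC]
  · have h1 : runC B x C ≠ [] := by
      intro h2
      have h3 := TseAAux.len B x C
      rw [h2] at h3
      exact h (List.length_eq_zero_iff.1 (by simpa using h3.symm))
    rw [TseAAux.last _ _ h1, TseAAux.len]

end P65
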